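import Mathlib

/-!
# Finsler metrics on real projective space in homogeneous coordinates

The tangent bundle of `RP^n` is the set of pairs `(x, w)` with `x ≠ 0` and `w` in `ℝ^(n+1)`
modulo `(x, w) ∼ (a x, a w + b x)` for real `a ≠ 0` and `b`.  A Finsler metric on `RP^n` is
therefore a function `F x w` which is invariant under these substitutions.
-/

namespace Pool.Agent.Lib_helper71.RP

open MeasureTheory Set
open scoped ContDiff ENNReal

/-- The Euclidean inner product on `Fin m → ℝ`. -/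
def ip {m : ℕ} (x w : Fin m → ℝ) : ℝ := ∑ i, x i * w i

/-- The (square root of the) Fubini-type metric of the round projective space:
`rho x w = √(|x|² |w|² - ⟨x, w⟩²) / |x|²`. -/
noncomputable def rho {m : ℕ} (x w : Fin m → ℝ) : ℝ :=
  Real.sqrt (ip x x * ip w w - ip x w ^ 2) / ip x x

/-- A smooth, not necessarily reversible, Finsler metric on `RP^n` in homogeneous coordinates. -/
structure IsFinslerRP (n : ℕ) (F : (Fin (n + 1) → ℝ) → (Fin (n + 1) → ℝ) → ℝ) : Prop where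
  smooth : ContDiffOn ℝ ∞ (fun p : (Fin (n + 1) → ℝ) × (Fin (n + 1) → ℝ) => F p.1 p.2)
    {p | LinearIndependent ℝ ![p.1, p.2]}
  inv : ∀ x w : Fin (n + 1) → ℝ, x ≠ 0 → ∀ a b : ℝ, a ≠ 0 → F (a • x) (a • w + b • x) = F x w
  pos : ∀ x w : Fin (n + 1) → ℝ, LinearIndependent ℝ ![x, w] → 0 < F x w
  homog : ∀ x w : Fin (n + 1) → ℝ, x ≠ 0 → ∀ s : ℝ, 0 ≤ s → F x (s • w) = s * F x w
  subadd : ∀ x w w' : Fin (n + 1) → ℝ, x ≠ 0 → F x (w + w') ≤ F x w + F x w'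

/-- A closed non-contractible `C¹` curve of `RP^n`, given by a lift to `ℝ^(n+1)` minus `0`. -/
structure IsOddLoop (n : ℕ) (c : ℝ → (Fin (n + 1) → ℝ)) : Prop where
  smooth : ContDiff ℝ 1 c
  ne_zero : ∀ t ∈ Icc (0 : ℝ) 1, c t ≠ 0
  odd : ∃ a : ℝ, a < 0 ∧ c 1 = a • c 0

/-- The length of a curve. -/
noncomputable def len {n : ℕ} (F : (Fin (n + 1) → ℝ) → (Fin (n + 1) → ℝ) → ℝ)
    (c : ℝ → (Fin (n + 1) → ℝ)) : ℝ :=
  ∫ t in (0 : ℝ)..1, F (c t) (deriv c t)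

/-- The integral over the affine chart of `RP^n` of the volume of the polars of the unit balls. -/
noncomputable def polarVol {n : ℕ} (F : (Fin (n + 1) → ℝ) → (Fin (n + 1) → ℝ) → ℝ) : ℝ≥0∞ :=
  ∫⁻ y : Fin n → ℝ, volume {xi : Fin n → ℝ | ∀ w : Fin n → ℝ,
    F (Fin.cons 1 y : Fin (n + 1) → ℝ) (Fin.cons 0 w : Fin (n + 1) → ℝ) ≤ 1 →
      ∑ i, xi i * w i ≤ 1}

/-- A finite family of smooth 1-forms on the double cover of `RP^n`, in homogeneous coordinates,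
which is invariant as a family under the deck transformation. -/
structure IsForms (n : ℕ) {ι : Type} (f : ι → (Fin (n + 1) → ℝ) → ((Fin (n + 1) → ℝ) →L[ℝ] ℝ)) :
    Prop where
  smooth : ∀ i, ContDiffOn ℝ ∞ (f i) {x | x ≠ 0}
  inv : ∀ i, ∀ x w : Fin (n + 1) → ℝ, x ≠ 0 → ∀ a b : ℝ, 0 < a →
    f i (a • x) (a • w + b • x) = f i x w
  neg : ∃ s : Equiv.Perm ι, ∀ i, ∀ x w : Fin (n + 1) → ℝ, x ≠ 0 → f (s i) (-x) (-w) = f i x w

/-- Every function which dominates the forms along an odd loop has integral at least `1`. -/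
def SysGeOne (n : ℕ) {ι : Type}
    (f : ι → (Fin (n + 1) → ℝ) → ((Fin (n + 1) → ℝ) →L[ℝ] ℝ)) : Prop :=
  ∀ c, IsOddLoop n c → ∀ h : ℝ → ℝ, ContinuousOn h (Icc 0 1) →
    (∀ t ∈ Icc (0 : ℝ) 1, 0 ≤ h t) → (∀ t ∈ Icc (0 : ℝ) 1, ∀ i, f i (c t) (deriv c t) ≤ h t) →
    1 ≤ ∫ t in (0 : ℝ)..1, h t

/-- The polar of the (possibly unbounded) unit ball of the maximum of the forms. -/
def polarForms {n : ℕ} {ι : Type} (f : ι → (Fin (n + 1) → ℝ) → ((Fin (n + 1) → ℝ) →L[ℝ] ℝ))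
    (y : Fin n → ℝ) : Set (Fin n → ℝ) :=
  {xi | ∀ w : Fin n → ℝ, ∀ m : ℝ, 0 ≤ m →
    (∀ i, f i (Fin.cons 1 y : Fin (n + 1) → ℝ) (Fin.cons 0 w : Fin (n + 1) → ℝ) ≤ m) →
      ∑ j, xi j * w j ≤ m}

end Pool.Agent.Lib_helper71.RP
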