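import Pool.Agent.Lib_helper71.RP.Smooth

/-!
# The family of 1-forms
-/

namespace Pool.Agent.Lib_helper71.RP

open MeasureTheory Set Filter Topology
open scoped ContDiff ENNReal

/-- signs -/
def sg (b : Bool) : ℝ := if b then 1 else -1

lemma sg_not (b : Bool) : sg (!b) = - sg b := by cases b <;> simp [sg]
lemma sg_abs (b : Bool) : |sg b| = 1 := by cases b <;> simp [sg]

/-- Index set of the family. -/
abbrev Idx := (Fin 3 ⊕ (Fin 3 → Bool)) ⊕ (Bool ⊕ ((Bool × Fin 3) ⊕ ((Bool × Fin 3) ⊕ Bool)))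

/-- winding forms -/
noncomputable def fA (j : Fin 3) (x : E6) : E6 →L[ℝ] ℝ := c1 x • Om j x
/-- simplex forms -/
noncomputable def fB (e : Fin 3 → Bool) (x : E6) : E6 →L[ℝ] ℝ :=
  (1 / 2 : ℝ) • ∑ j, sg (e j) • fderiv ℝ (tt j) x
/-- depth forms -/
noncomputable def fC (b : Bool) (x : E6) : E6 →L[ℝ] ℝ := sg b • fderiv ℝ rr x
/-- real parts -/
noncomputable def fD (q : Bool × Fin 3) (x : E6) : E6 →L[ℝ] ℝ :=
  (4 * sg q.1 * c2 x) • fderiv ℝ (fun x => (pp q.2 x).re) x
/-- imaginary parts -/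
noncomputable def fE (q : Bool × Fin 3) (x : E6) : E6 →L[ℝ] ℝ :=
  (4 * sg q.1 * c2 x) • fderiv ℝ (fun x => (pp q.2 x).im) x
/-- last coordinate -/
noncomputable def fG (b : Bool) (x : E6) : E6 →L[ℝ] ℝ := (4 * sg b * c2 x) • fderiv ℝ psi x

/-- The family. -/
noncomputable def forms : Idx → E6 → (E6 →L[ℝ] ℝ) :=
  Sum.elim (Sum.elim fA fB) (Sum.elim fC (Sum.elim fD (Sum.elim fE fG)))

/-- flip of the sign -/
def flipB {α : Type} : Equiv.Perm (Bool × α) := Equiv.prodCongr (Equiv.boolNot) (Equiv.refl α)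

/-- The permutation induced by the deck transformation. -/
def permI : Equiv.Perm Idx :=
  Equiv.sumCongr (Equiv.refl _)
    (Equiv.sumCongr (Equiv.refl _) (Equiv.sumCongr flipB (Equiv.sumCongr flipB Equiv.boolNot)))

lemma cd_smul_fderiv {c g : E6 → ℝ} {x : E6} (hc : ContDiffAt ℝ ∞ c x) (hg : ContDiffAt ℝ ∞ g x) :
    ContDiffAt ℝ ∞ (fun x => c x • fderiv ℝ g x) x := hc.smul (cd_fderiv hg)

lemma cd_ppre (j : Fin 3) {x : E6} (hx : x ≠ 0) : ContDiffAt ℝ ∞ (fun x => (pp j x).re) x :=
  Complex.reCLM.contDiff.contDiffAt.comp x (cd_pp j hx)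
lemma cd_ppim (j : Fin 3) {x : E6} (hx : x ≠ 0) : ContDiffAt ℝ ∞ (fun x => (pp j x).im) x :=
  Complex.imCLM.contDiff.contDiffAt.comp x (cd_pp j hx)

lemma cd_forms (i : Idx) {x : E6} (hx : x ≠ 0) : ContDiffAt ℝ ∞ (forms i) x := by
  rcases i with (j | e) | (b | (q | (q | b)))
  · exact cd_c1Om j hx
  · exact (ContDiffAt.sum fun j _ => (cd_fderiv (cd_tt j hx)).const_smul (sg (e j))).const_smul _
  · exact (cd_fderiv (cd_rr hx)).const_smul (sg b)
  · exact cd_smul_fderiv (contDiffAt_const.mul (cd_c2 hx)) (cd_ppre q.2 hx)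
  · exact cd_smul_fderiv (contDiffAt_const.mul (cd_c2 hx)) (cd_ppim q.2 hx)
  · exact cd_smul_fderiv (contDiffAt_const.mul (cd_c2 hx)) (cd_psi hx)

lemma om_inv (j : Fin 3) {a : ℝ} (ha : 0 < a) (b : ℝ) (x w : E6) :
    om j (a • x) (a • w + b • x) = om j x w := by
  simp only [om, sub_apply, smul_apply]
  rw [theta_inv j ha.ne', fderiv_inv (fun a ha x => xd_smul ha.ne' x) ha]

lemma xd_neg (x : E6) : xd (-x) = xd x := by
  have := xd_smul (a := -1) (by norm_num) x
  rwa [neg_one_smul] at this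

lemma r_neg (j : Fin 3) (x : E6) : r j (-x) = r j x := by
  have := r_smul j (a := -1) (by norm_num) x
  rwa [neg_one_smul] at this

lemma c1_neg (x : E6) : c1 (-x) = c1 x := by rw [c1, c1, rr_neg]
lemma c2_neg (x : E6) : c2 (-x) = c2 x := by rw [c2, c2, rr_neg]

lemma om_neg (j : Fin 3) (x w : E6) : om j (-x) (-w) = om j x w := by
  simp only [om, sub_apply, smul_apply]
  rw [fderiv_even xd_neg]
  congr 1
  have := theta_inv j (a := -1) (by norm_num) 0 x w
  simpa using this

lemma Om_inv (j : Fin 3) {a : ℝ} (ha : 0 < a) (b : ℝ) (x w : E6) :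
    Om j (a • x) (a • w + b • x) = Om j x w := by
  rw [Om, Om, r_smul _ ha.ne', r_smul _ ha.ne']
  split_ifs
  · rw [sub_apply, neg_apply, om_inv _ ha, om_inv _ ha, sub_apply, neg_apply]
  · exact om_inv j ha b x w

lemma Om_neg (j : Fin 3) (x w : E6) : Om j (-x) (-w) = Om j x w := by
  rw [Om, Om, r_neg, r_neg]
  split_ifs
  · rw [sub_apply, neg_apply, om_neg, om_neg, sub_apply, neg_apply]
  · exact om_neg j x w

lemma fA_apply (j : Fin 3) (x w : E6) : fA j x w = c1 x * Om j x w := rfl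
lemma fB_apply (e : Fin 3 → Bool) (x w : E6) :
    fB e x w = (1 / 2) * ∑ j, sg (e j) * fderiv ℝ (tt j) x w := by
  simp only [fB, smul_apply, sum_apply, smul_eq_mul]
lemma fC_apply (b : Bool) (x w : E6) : fC b x w = sg b * fderiv ℝ rr x w := rfl
lemma fD_apply (q : Bool × Fin 3) (x w : E6) :
    fD q x w = (4 * sg q.1 * c2 x) * fderiv ℝ (fun x => (pp q.2 x).re) x w := rfl
lemma fE_apply (q : Bool × Fin 3) (x w : E6) :
    fE q x w = (4 * sg q.1 * c2 x) * fderiv ℝ (fun x => (pp q.2 x).im) x w := rfl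
lemma fG_apply (b : Bool) (x w : E6) :
    fG b x w = (4 * sg b * c2 x) * fderiv ℝ psi x w := rfl

lemma isForms : IsForms 5 forms where
  smooth := fun i x hx => (cd_forms i hx).contDiffWithinAt
  inv := by
    rintro i x w - a b ha
    rcases i with (j | e) | (q | (q | (q | q)))
    · change fA j (a • x) (a • w + b • x) = fA j x w
      rw [fA_apply, fA_apply, c1_smul ha.ne', Om_inv j ha]
    · change fB e (a • x) (a • w + b • x) = fB e x w
      rw [fB_apply, fB_apply]
      congr 1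
      refine Finset.sum_congr rfl fun j _ => ?_
      rw [fderiv_inv (fun a ha x => tt_smul j ha.ne' x) ha]
    · change fC q (a • x) (a • w + b • x) = fC q x w
      rw [fC_apply, fC_apply, fderiv_inv (fun a ha x => rr_smul ha.ne' x) ha]
    · change fD q (a • x) (a • w + b • x) = fD q x w
      rw [fD_apply, fD_apply,
        fderiv_inv (g := fun x => (pp q.2 x).re) (fun a ha x => by simp only [pp_smul _ ha]) ha,
        c2_smul ha.ne']
    · change fE q (a • x) (a • w + b • x) = fE q x w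
      rw [fE_apply, fE_apply,
        fderiv_inv (g := fun x => (pp q.2 x).im) (fun a ha x => by simp only [pp_smul _ ha]) ha,
        c2_smul ha.ne']
    · change fG q (a • x) (a • w + b • x) = fG q x w
      rw [fG_apply, fG_apply, fderiv_inv (g := psi) (fun a ha x => psi_smul ha x) ha,
        c2_smul ha.ne']
  neg := by
    refine ⟨permI, ?_⟩
    rintro i x w -
    rcases i with (j | e) | (q | (q | (q | q)))
    · change fA j (-x) (-w) = fA j x w
      rw [fA_apply, fA_apply, c1_neg, Om_neg j]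
    · change fB e (-x) (-w) = fB e x w
      rw [fB_apply, fB_apply]
      congr 1
      refine Finset.sum_congr rfl fun j _ => ?_
      rw [fderiv_even (fun x => tt_neg j x)]
    · change fC q (-x) (-w) = fC q x w
      rw [fC_apply, fC_apply, fderiv_even (fun x => rr_neg x)]
    · change fD (!q.1, q.2) (-x) (-w) = fD q x w
      rw [fD_apply, fD_apply,
        fderiv_odd (g := fun x => (pp q.2 x).re) (fun x => by simp only [pp_neg]; simp), c2_neg,
        sg_not]
      ring
    · change fE (!q.1, q.2) (-x) (-w) = fE q x w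
      rw [fE_apply, fE_apply,
        fderiv_odd (g := fun x => (pp q.2 x).im) (fun x => by simp only [pp_neg]; simp), c2_neg,
        sg_not]
      ring
    · change fG (!q) (-x) (-w) = fG q x w
      rw [fG_apply, fG_apply, fderiv_odd (g := psi) (fun x => psi_neg x), c2_neg, sg_not]
      ring

end Pool.Agent.Lib_helper71.RP
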