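import Pool.Agent.Lib_helper71.RP.Defs

/-!
# The concrete functions on `ℝ^6 = ℂ^3`
-/

namespace Pool.Agent.Lib_helper71.RP

open MeasureTheory Set
open scoped ContDiff ENNReal

/-- Coordinates of `ℂ^3`. -/
abbrev E6 := Fin (5 + 1) → ℝ

/-- index of the real part -/
def ri : Fin 3 → Fin (5 + 1) := ![0, 2, 4]
/-- index of the imaginary part -/
def ii : Fin 3 → Fin (5 + 1) := ![1, 3, 5]

/-- The complex coordinates. -/
noncomputable def zc (j : Fin 3) : E6 →L[ℝ] ℂ :=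
  (Complex.equivRealProdCLM.symm : ℝ × ℝ →L[ℝ] ℂ).comp
    ((ContinuousLinearMap.proj (R := ℝ) (φ := fun _ : Fin (5 + 1) => ℝ) (ri j)).prod
      (ContinuousLinearMap.proj (R := ℝ) (φ := fun _ : Fin (5 + 1) => ℝ) (ii j)))

@[simp] lemma zc_re (j : Fin 3) (x : E6) : (zc j x).re = x (ri j) := rfl
@[simp] lemma zc_im (j : Fin 3) (x : E6) : (zc j x).im = x (ii j) := rfl

/-- squared norm -/
noncomputable def nn (x : E6) : ℝ := ∑ j, Complex.normSq (zc j x)

/-- normalised squared moduli -/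
noncomputable def r (j : Fin 3) (x : E6) : ℝ := Complex.normSq (zc j x) / nn x

/-- product of the coordinates -/
noncomputable def pr (x : E6) : ℂ := zc 0 x * zc 1 x * zc 2 x

/-- normalised imaginary part of the product -/
noncomputable def yy (x : E6) : ℝ := 54 * (pr x).im / Real.sqrt (nn x) ^ 3

/-- cutoff `1/9 → 1/6` -/
noncomputable def chi (s : ℝ) : ℝ := Real.smoothTransition (18 * s - 2)
/-- cutoff `1/6 → 1/4` -/
noncomputable def chi4 (s : ℝ) : ℝ := Real.smoothTransition (12 * s - 2)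
/-- bump, positive after `1/4` -/
noncomputable def eta (s : ℝ) : ℝ := expNegInvGlue (s - 1 / 4)

/-- odd function -/
noncomputable def psi (x : E6) : ℝ := 2 * Real.smoothTransition ((yy x + 1) / 2) - 1
/-- depth towards `|yy| ≥ 2` -/
noncomputable def bb (x : E6) : ℝ := Real.smoothTransition ((yy x ^ 2 - 1) / 3)
noncomputable def mu (x : E6) : ℝ := 1 - psi x ^ 2
noncomputable def sh (x : E6) : ℝ := ∑ j, eta (r j x)
noncomputable def tt (j : Fin 3) (x : E6) : ℝ := mu x * (eta (r j x) / sh x)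
/-- argument of the product, divided by `π`, in `(-1/2, 1/2)` -/
noncomputable def dd (x : E6) : ℝ := Real.arctan ((pr x).im / (pr x).re) / Real.pi
noncomputable def xx (x : E6) : ℝ := ∏ j, chi (r j x)
noncomputable def xd (x : E6) : ℝ := xx x * dd x
noncomputable def dk (k : Fin 3) (x : E6) : ℝ := (1 - chi4 (r (k + 1) x)) * (1 - chi4 (r (k + 2) x))
/-- depth -/
noncomputable def rr (x : E6) : ℝ := 1 - (1 - bb x) * ∏ k, (1 - dk k x)
noncomputable def c1 (x : E6) : ℝ := 1 - Real.smoothTransition (8 * rr x - 6)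
noncomputable def c2 (x : E6) : ℝ := Real.smoothTransition (4 * rr x)
/-- weights -/
def sw : Fin 3 → ℝ := ![1, 0, 0]
noncomputable def uu (j : Fin 3) (x : E6) : ℂ :=
  (zc j x / ‖zc j x‖) * Complex.exp (((-(Real.pi * sw j * xd x) : ℝ) : ℂ) * Complex.I)
noncomputable def pp (j : Fin 3) (x : E6) : ℂ := (tt j x : ℂ) * uu j x
noncomputable def theta (j : Fin 3) (x : E6) : E6 →L[ℝ] ℝ :=
  (1 / Real.pi) • (Complex.imCLM.comp ((zc j x)⁻¹ • zc j))
noncomputable def om (j : Fin 3) (x : E6) : E6 →L[ℝ] ℝ :=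
  theta j x - sw j • fderiv ℝ xd x
open Classical in
noncomputable def Om (j : Fin 3) (x : E6) : E6 →L[ℝ] ℝ :=
  if 1 / 6 < r (j + 1) x ∧ 1 / 6 < r (j + 2) x then - om (j + 1) x - om (j + 2) x else om j x

lemma nn_eq (x : E6) : nn x = ∑ i, x i ^ 2 := by
  simp only [nn, Complex.normSq_apply, zc_re, zc_im, ri, ii,
    Fin.sum_univ_succ, Fin.sum_univ_zero]
  simp
  ring_nf

lemma nn_eq_ip (x : E6) : nn x = ip x x := by
  rw [nn_eq, ip]
  exact Finset.sum_congr rfl fun i _ => by ring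

lemma nn_pos {x : E6} (hx : x ≠ 0) : 0 < nn x := by
  rw [nn_eq]
  by_contra h
  apply hx
  have h0 : ∑ i, x i ^ 2 = 0 := le_antisymm (not_lt.1 h) (Finset.sum_nonneg fun i _ => sq_nonneg _)
  rw [Finset.sum_eq_zero_iff_of_nonneg (fun i _ => sq_nonneg _)] at h0
  funext i
  simpa using h0 i (Finset.mem_univ _)

lemma nn_nonneg (x : E6) : 0 ≤ nn x := by
  rw [nn_eq]; exact Finset.sum_nonneg fun i _ => sq_nonneg _

lemma r_nonneg (j : Fin 3) (x : E6) : 0 ≤ r j x :=
  div_nonneg (Complex.normSq_nonneg _) (nn_nonneg x)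

lemma r_sum {x : E6} (hx : x ≠ 0) : ∑ j, r j x = 1 := by
  simp only [r]
  rw [← Finset.sum_div]
  exact div_self (nn_pos hx).ne'

lemma r_sum3 {x : E6} (hx : x ≠ 0) : r 0 x + r 1 x + r 2 x = 1 := by
  have := r_sum hx
  rwa [Fin.sum_univ_three] at this

lemma r_sum' {x : E6} (hx : x ≠ 0) (j : Fin 3) : r j x + r (j + 1) x + r (j + 2) x = 1 := by
  have := r_sum3 hx
  fin_cases j <;> simp <;> linarith

lemma exists_r_ge {x : E6} (hx : x ≠ 0) : ∃ j, 1 / 3 ≤ r j x := by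
  by_contra h
  push Not at h
  have := r_sum3 hx
  linarith [h 0, h 1, h 2]

lemma r_pos_iff {x : E6} (hx : x ≠ 0) (j : Fin 3) : 0 < r j x ↔ zc j x ≠ 0 := by
  rw [r, div_pos_iff]
  constructor
  · rintro (⟨h, _⟩ | ⟨_, h⟩)
    · exact Complex.normSq_pos.1 h
    · exact absurd h (not_lt.2 (nn_nonneg x))
  · intro h
    exact Or.inl ⟨Complex.normSq_pos.2 h, nn_pos hx⟩

/-! ### Values of the cutoffs -/

lemma chi_nonneg (s : ℝ) : 0 ≤ chi s := Real.smoothTransition.nonneg _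
lemma chi_le_one (s : ℝ) : chi s ≤ 1 := Real.smoothTransition.le_one _
lemma chi_zero {s : ℝ} (h : s ≤ 1 / 9) : chi s = 0 :=
  Real.smoothTransition.zero_of_nonpos (by linarith)
lemma chi_one {s : ℝ} (h : 1 / 6 ≤ s) : chi s = 1 :=
  Real.smoothTransition.one_of_one_le (by linarith)
lemma chi4_nonneg (s : ℝ) : 0 ≤ chi4 s := Real.smoothTransition.nonneg _
lemma chi4_le_one (s : ℝ) : chi4 s ≤ 1 := Real.smoothTransition.le_one _
lemma chi4_zero {s : ℝ} (h : s ≤ 1 / 6) : chi4 s = 0 :=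
  Real.smoothTransition.zero_of_nonpos (by linarith)
lemma chi4_one {s : ℝ} (h : 1 / 4 ≤ s) : chi4 s = 1 :=
  Real.smoothTransition.one_of_one_le (by linarith)
lemma eta_nonneg (s : ℝ) : 0 ≤ eta s := expNegInvGlue.nonneg _
lemma eta_zero {s : ℝ} (h : s ≤ 1 / 4) : eta s = 0 :=
  expNegInvGlue.zero_of_nonpos (by linarith)
lemma eta_pos {s : ℝ} (h : 1 / 4 < s) : 0 < eta s :=
  expNegInvGlue.pos_of_pos (by linarith)

lemma sh_pos {x : E6} (hx : x ≠ 0) : 0 < sh x := by
  obtain ⟨j, hj⟩ := exists_r_ge hx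
  exact lt_of_lt_of_le (eta_pos (by linarith))
    (Finset.single_le_sum (f := fun j => eta (r j x)) (fun _ _ => eta_nonneg _)
      (Finset.mem_univ j))

lemma psi_le_one (x : E6) : psi x ≤ 1 := by
  have := Real.smoothTransition.le_one ((yy x + 1) / 2)
  rw [psi]; linarith
lemma neg_one_le_psi (x : E6) : -1 ≤ psi x := by
  have := Real.smoothTransition.nonneg ((yy x + 1) / 2)
  rw [psi]; linarith
lemma psi_sq_le_one (x : E6) : psi x ^ 2 ≤ 1 := by
  have h1 := psi_le_one x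
  have h2 := neg_one_le_psi x
  nlinarith
lemma psi_of_ge {x : E6} (h : 1 ≤ yy x) : psi x = 1 := by
  rw [psi, Real.smoothTransition.one_of_one_le (by linarith)]; norm_num
lemma psi_of_le {x : E6} (h : yy x ≤ -1) : psi x = -1 := by
  rw [psi, Real.smoothTransition.zero_of_nonpos (by linarith)]; norm_num
lemma psi_sq_of_one_le {x : E6} (h : 1 ≤ |yy x|) : psi x ^ 2 = 1 := by
  rcases le_abs.1 h with h | h
  · rw [psi_of_ge h]; norm_num
  · rw [psi_of_le (by linarith)]; norm_num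
lemma mu_nonneg (x : E6) : 0 ≤ mu x := by
  have := psi_sq_le_one x
  rw [mu]; linarith
lemma mu_le_one (x : E6) : mu x ≤ 1 := by
  rw [mu]; nlinarith [sq_nonneg (psi x)]
lemma mu_zero {x : E6} (h : 1 ≤ |yy x|) : mu x = 0 := by
  rw [mu, psi_sq_of_one_le h]; norm_num
lemma tt_nonneg (j : Fin 3) {x : E6} : 0 ≤ tt j x :=
  mul_nonneg (mu_nonneg x) (div_nonneg (eta_nonneg _)
    (Finset.sum_nonneg fun _ _ => eta_nonneg _))
lemma tt_sum {x : E6} (hx : x ≠ 0) : ∑ j, tt j x = mu x := by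
  simp only [tt]
  rw [← Finset.mul_sum, ← Finset.sum_div, ← sh, div_self (sh_pos hx).ne', mul_one]
lemma tt_zero {j : Fin 3} {x : E6} (h : r j x ≤ 1 / 4) : tt j x = 0 := by
  rw [tt, eta_zero h]; simp
lemma tt_zero' {j : Fin 3} {x : E6} (h : 1 ≤ |yy x|) : tt j x = 0 := by
  rw [tt, mu_zero h]; simp

lemma bb_nonneg (x : E6) : 0 ≤ bb x := Real.smoothTransition.nonneg _
lemma bb_le_one (x : E6) : bb x ≤ 1 := Real.smoothTransition.le_one _
lemma bb_zero {x : E6} (h : |yy x| ≤ 1) : bb x = 0 := by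
  apply Real.smoothTransition.zero_of_nonpos
  have : yy x ^ 2 ≤ 1 := by rw [← sq_abs]; nlinarith [abs_nonneg (yy x)]
  linarith
lemma bb_one {x : E6} (h : 2 ≤ |yy x|) : bb x = 1 := by
  apply Real.smoothTransition.one_of_one_le
  have : 4 ≤ yy x ^ 2 := by rw [← sq_abs]; nlinarith [abs_nonneg (yy x)]
  linarith

lemma dk_nonneg (k : Fin 3) (x : E6) : 0 ≤ dk k x :=
  mul_nonneg (sub_nonneg.2 (chi4_le_one _)) (sub_nonneg.2 (chi4_le_one _))
lemma dk_le_one (k : Fin 3) (x : E6) : dk k x ≤ 1 :=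
  mul_le_one₀ (sub_le_self _ (chi4_nonneg _)) (sub_nonneg.2 (chi4_le_one _))
    (sub_le_self _ (chi4_nonneg _))
lemma dk_one {k : Fin 3} {x : E6} (h1 : r (k + 1) x ≤ 1 / 6) (h2 : r (k + 2) x ≤ 1 / 6) :
    dk k x = 1 := by
  rw [dk, chi4_zero h1, chi4_zero h2]; norm_num
lemma dk_zero {k : Fin 3} {x : E6} (h : 1 / 4 ≤ r (k + 1) x ∨ 1 / 4 ≤ r (k + 2) x) :
    dk k x = 0 := by
  rcases h with h | h
  · rw [dk, chi4_one h]; simp
  · rw [dk, chi4_one h]; simp

lemma prod_dk_nonneg (x : E6) : 0 ≤ ∏ k, (1 - dk k x) :=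
  Finset.prod_nonneg fun k _ => sub_nonneg.2 (dk_le_one k x)
lemma prod_dk_le_one (x : E6) : ∏ k, (1 - dk k x) ≤ 1 :=
  Finset.prod_le_one (fun k _ => sub_nonneg.2 (dk_le_one k x))
    fun k _ => sub_le_self _ (dk_nonneg k x)

lemma rr_nonneg (x : E6) : 0 ≤ rr x := by
  have := mul_le_one₀ (sub_le_self 1 (bb_nonneg x)) (prod_dk_nonneg x) (prod_dk_le_one x)
  rw [rr]; linarith
lemma rr_le_one (x : E6) : rr x ≤ 1 := by
  have := mul_nonneg (sub_nonneg.2 (bb_le_one x)) (prod_dk_nonneg x)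
  rw [rr]; linarith

/-- In the region where the depth is less than one, `|yy| < 2`. -/
lemma yy_lt_of_rr {x : E6} (h : rr x < 1) : |yy x| < 2 := by
  by_contra h'
  have := bb_one (not_lt.1 h')
  rw [rr, this] at h
  simp at h

/-- In the region where the depth is less than one, at most one of the `r j` is `≤ 1/6`. -/
lemma r_gt_of_rr {x : E6} (h : rr x < 1) (k : Fin 3) :
    1 / 6 < r (k + 1) x ∨ 1 / 6 < r (k + 2) x := by
  by_contra h'
  push Not at h'
  have := dk_one h'.1 h'.2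
  have h0 : ∏ k, (1 - dk k x) = 0 :=
    Finset.prod_eq_zero (Finset.mem_univ k) (by rw [this]; norm_num)
  rw [rr, h0] at h
  simp at h

lemma rr_zero {x : E6} (h : |yy x| ≤ 1)
    (h' : ∀ k : Fin 3, 1 / 4 ≤ r (k + 1) x ∨ 1 / 4 ≤ r (k + 2) x) : rr x = 0 := by
  rw [rr, bb_zero h, Finset.prod_eq_one (fun k _ => by rw [dk_zero (h' k)]; norm_num)]
  norm_num

lemma c1_nonneg (x : E6) : 0 ≤ c1 x := sub_nonneg.2 (Real.smoothTransition.le_one _)
lemma c1_one {x : E6} (h : rr x ≤ 3 / 4) : c1 x = 1 := by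
  rw [c1, Real.smoothTransition.zero_of_nonpos (by linarith)]; norm_num
lemma c1_zero {x : E6} (h : 7 / 8 ≤ rr x) : c1 x = 0 := by
  rw [c1, Real.smoothTransition.one_of_one_le (by linarith)]; norm_num
lemma c2_one {x : E6} (h : 1 / 4 ≤ rr x) : c2 x = 1 :=
  Real.smoothTransition.one_of_one_le (by linarith)
lemma c2_zero {x : E6} (h : rr x ≤ 0) : c2 x = 0 :=
  Real.smoothTransition.zero_of_nonpos (by linarith)

lemma xx_zero {x : E6} {k : Fin 3} (h : r k x ≤ 1 / 9) : xx x = 0 :=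
  Finset.prod_eq_zero (Finset.mem_univ k) (chi_zero h)
lemma xx_one {x : E6} (h : ∀ k, 1 / 6 ≤ r k x) : xx x = 1 :=
  Finset.prod_eq_one fun k _ => chi_one (h k)

/-! ### The product of the coordinates -/

lemma normSq_pr {x : E6} (hx : x ≠ 0) :
    Complex.normSq (pr x) = nn x ^ 3 * (r 0 x * r 1 x * r 2 x) := by
  have := (nn_pos hx).ne'
  rw [pr, Complex.normSq_mul, Complex.normSq_mul, r, r, r]
  field_simp

lemma yy_sq {x : E6} (hx : x ≠ 0) : yy x ^ 2 * nn x ^ 3 = 54 ^ 2 * (pr x).im ^ 2 := by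
  have h := nn_pos hx
  have h1 : (Real.sqrt (nn x) ^ 3) ^ 2 = nn x ^ 3 := by
    rw [← pow_mul, mul_comm, pow_mul, Real.sq_sqrt h.le]
  rw [yy, div_pow, h1]
  field_simp

/-- The key fact that makes the argument of the product well defined. -/
lemma re_pr_ne {x : E6} (hx : x ≠ 0) (hr : ∀ k, 1 / 9 ≤ r k x) (hy : |yy x| < 2) :
    (pr x).re ≠ 0 := by
  intro h0
  have h := nn_pos hx
  have h1 := normSq_pr hx
  rw [Complex.normSq_apply, h0] at h1
  have h2 := yy_sq hx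
  have h3 : yy x ^ 2 < 4 := by rw [← sq_abs]; nlinarith [abs_nonneg (yy x)]
  have h4 : (1 / 9 : ℝ) * (1 / 9) * (1 / 9) ≤ r 0 x * r 1 x * r 2 x := by
    apply mul_le_mul _ (hr 2) (by norm_num) (by positivity [r_nonneg 0 x, r_nonneg 1 x])
    exact mul_le_mul (hr 0) (hr 1) (by norm_num) (r_nonneg 0 x)
  have h5 : 0 < nn x ^ 3 := by positivity
  have h6 : nn x ^ 3 * ((1 / 9 : ℝ) * (1 / 9) * (1 / 9)) ≤ nn x ^ 3 * (r 0 x * r 1 x * r 2 x) :=
    mul_le_mul_of_nonneg_left h4 h5.le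
  nlinarith

/-! ### Homogeneity -/

lemma zc_smul (j : Fin 3) (a : ℝ) (x : E6) : zc j (a • x) = (a : ℂ) * zc j x := by
  rw [map_smul, Complex.real_smul]

lemma nn_smul (a : ℝ) (x : E6) : nn (a • x) = a ^ 2 * nn x := by
  rw [nn_eq, nn_eq, Finset.mul_sum]
  exact Finset.sum_congr rfl fun i _ => by simp [mul_pow]

lemma r_smul (j : Fin 3) {a : ℝ} (ha : a ≠ 0) (x : E6) : r j (a • x) = r j x := by
  rw [r, r, nn_smul, zc_smul, Complex.normSq_mul, Complex.normSq_ofReal]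
  have : a ^ 2 ≠ 0 := pow_ne_zero _ ha
  rw [show a * a = a ^ 2 by ring]
  exact mul_div_mul_left _ _ this

lemma pr_smul (a : ℝ) (x : E6) : pr (a • x) = ((a ^ 3 : ℝ) : ℂ) * pr x := by
  rw [pr, pr, zc_smul, zc_smul, zc_smul]
  push_cast
  ring

lemma yy_smul {a : ℝ} (ha : 0 < a) (x : E6) : yy (a • x) = yy x := by
  rw [yy, yy, pr_smul, nn_smul, Complex.im_ofReal_mul, Real.sqrt_mul (by positivity),
    Real.sqrt_sq ha.le, mul_pow]
  have : a ^ 3 ≠ 0 := pow_ne_zero _ ha.ne'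
  rw [show 54 * (a ^ 3 * (pr x).im) = a ^ 3 * (54 * (pr x).im) by ring]
  exact mul_div_mul_left _ _ this

lemma zc_neg (j : Fin 3) (x : E6) : zc j (-x) = - zc j x := map_neg _ _

lemma nn_neg (x : E6) : nn (-x) = nn x := by
  rw [nn_eq, nn_eq]
  exact Finset.sum_congr rfl fun i _ => by simp

lemma pr_neg (x : E6) : pr (-x) = - pr x := by
  rw [pr, pr, zc_neg, zc_neg, zc_neg]; ring

lemma yy_neg (x : E6) : yy (-x) = - yy x := by
  rw [yy, yy, pr_neg, nn_neg, Complex.neg_im]; ring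

lemma yy_smul_neg {a : ℝ} (ha : a < 0) (x : E6) : yy (a • x) = - yy x := by
  have : a • x = -((-a) • x) := by simp
  rw [this, yy_neg, yy_smul (by linarith)]

/-- Either sign. -/
lemma yy_smul_cases {a : ℝ} (ha : a ≠ 0) (x : E6) : yy (a • x) = yy x ∨ yy (a • x) = - yy x := by
  rcases lt_or_gt_of_ne ha with h | h
  · exact Or.inr (yy_smul_neg h x)
  · exact Or.inl (yy_smul h x)

lemma stran_symm (s : ℝ) : Real.smoothTransition (1 - s) = 1 - Real.smoothTransition s := by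
  rw [Real.smoothTransition, Real.smoothTransition]
  have h : 0 < expNegInvGlue s + expNegInvGlue (1 - s) := Real.smoothTransition.pos_denom s
  have h2 : expNegInvGlue (1 - s) + expNegInvGlue (1 - (1 - s)) =
    expNegInvGlue s + expNegInvGlue (1 - s) := by
    rw [sub_sub_cancel]; ring
  rw [h2]
  field_simp
  ring

lemma psi_smul {a : ℝ} (ha : 0 < a) (x : E6) : psi (a • x) = psi x := by
  rw [psi, psi, yy_smul ha]

lemma psi_neg (x : E6) : psi (-x) = - psi x := by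
  rw [psi, psi, yy_neg]
  have : (-yy x + 1) / 2 = 1 - (yy x + 1) / 2 := by ring
  rw [this, stran_symm]; ring

lemma bb_smul {a : ℝ} (ha : a ≠ 0) (x : E6) : bb (a • x) = bb x := by
  rcases yy_smul_cases ha x with h | h <;> rw [bb, bb, h]
  rw [neg_sq]

lemma psi_sq_smul {a : ℝ} (ha : a ≠ 0) (x : E6) : psi (a • x) ^ 2 = psi x ^ 2 := by
  rcases lt_or_gt_of_ne ha with h | h
  · have : a • x = -((-a) • x) := by simp
    rw [this, psi_neg, psi_smul (by linarith), neg_sq]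
  · rw [psi_smul h]

lemma mu_smul {a : ℝ} (ha : a ≠ 0) (x : E6) : mu (a • x) = mu x := by
  rw [mu, mu, psi_sq_smul ha]

lemma sh_smul {a : ℝ} (ha : a ≠ 0) (x : E6) : sh (a • x) = sh x :=
  Finset.sum_congr rfl fun j _ => by rw [r_smul j ha]

lemma tt_smul (j : Fin 3) {a : ℝ} (ha : a ≠ 0) (x : E6) : tt j (a • x) = tt j x := by
  rw [tt, tt, mu_smul ha, sh_smul ha, r_smul j ha]

lemma xx_smul {a : ℝ} (ha : a ≠ 0) (x : E6) : xx (a • x) = xx x :=
  Finset.prod_congr rfl fun j _ => by rw [r_smul j ha]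

lemma dd_smul {a : ℝ} (ha : a ≠ 0) (x : E6) : dd (a • x) = dd x := by
  rw [dd, dd, pr_smul, Complex.re_ofReal_mul, Complex.im_ofReal_mul,
    mul_div_mul_left _ _ (pow_ne_zero 3 ha)]

lemma xd_smul {a : ℝ} (ha : a ≠ 0) (x : E6) : xd (a • x) = xd x := by
  rw [xd, xd, xx_smul ha, dd_smul ha]

lemma dk_smul (k : Fin 3) {a : ℝ} (ha : a ≠ 0) (x : E6) : dk k (a • x) = dk k x := by
  rw [dk, dk, r_smul _ ha, r_smul _ ha]

lemma rr_smul {a : ℝ} (ha : a ≠ 0) (x : E6) : rr (a • x) = rr x := by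
  rw [rr, rr, bb_smul ha, Finset.prod_congr rfl fun k _ => by rw [dk_smul k ha]]

lemma c1_smul {a : ℝ} (ha : a ≠ 0) (x : E6) : c1 (a • x) = c1 x := by
  rw [c1, c1, rr_smul ha]

lemma c2_smul {a : ℝ} (ha : a ≠ 0) (x : E6) : c2 (a • x) = c2 x := by
  rw [c2, c2, rr_smul ha]

lemma uu_smul (j : Fin 3) {a : ℝ} (ha : 0 < a) (x : E6) : uu j (a • x) = uu j x := by
  rw [uu, uu, xd_smul ha.ne', zc_smul, norm_mul, Complex.norm_real, Real.norm_eq_abs,
    abs_of_pos ha]
  have : (a : ℂ) ≠ 0 := Complex.ofReal_ne_zero.2 ha.ne'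
  push_cast
  rw [mul_div_mul_left _ _ this]

lemma uu_neg (j : Fin 3) (x : E6) : uu j (-x) = - uu j x := by
  have h : xd (-x) = xd x := by
    have := xd_smul (a := -1) (by norm_num) x
    rwa [neg_one_smul] at this
  rw [uu, uu, h, zc_neg, norm_neg]
  ring

lemma pp_smul (j : Fin 3) {a : ℝ} (ha : 0 < a) (x : E6) : pp j (a • x) = pp j x := by
  rw [pp, pp, tt_smul j ha.ne', uu_smul j ha]

lemma tt_neg (j : Fin 3) (x : E6) : tt j (-x) = tt j x := by
  have := tt_smul j (a := -1) (by norm_num) x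
  rwa [neg_one_smul] at this

lemma rr_neg (x : E6) : rr (-x) = rr x := by
  have := rr_smul (a := -1) (by norm_num) x
  rwa [neg_one_smul] at this

lemma pp_neg (j : Fin 3) (x : E6) : pp j (-x) = - pp j x := by
  rw [pp, pp, uu_neg, tt_neg]
  ring

lemma theta_inv (j : Fin 3) {a : ℝ} (ha : a ≠ 0) (b : ℝ) (x w : E6) :
    theta j (a • x) (a • w + b • x) = theta j x w := by
  simp only [theta, smul_apply, ContinuousLinearMap.comp_apply,
    Complex.imCLM_apply, smul_eq_mul]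
  congr 1
  rw [map_add, zc_smul, zc_smul, zc_smul]
  by_cases h : zc j x = 0
  · simp [h]
  · have ha' : (a : ℂ) ≠ 0 := Complex.ofReal_ne_zero.2 ha
    have : ((a : ℂ) * zc j x)⁻¹ * (a * zc j w + b * zc j x) = (zc j x)⁻¹ * zc j w + ((b / a : ℝ) : ℂ) := by
      push_cast
      field_simp
    rw [this, Complex.add_im, Complex.ofReal_im, add_zero]

/-- Derivative of a function which is invariant under positive scalings. -/
lemma fderiv_inv {g : E6 → ℝ} (hg : ∀ a : ℝ, 0 < a → ∀ x, g (a • x) = g x) {a : ℝ} (ha : 0 < a)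
    (b : ℝ) (x w : E6) : fderiv ℝ g (a • x) (a • w + b • x) = fderiv ℝ g x w := by
  have h2 : ∀ w, fderiv ℝ g (a • x) (a • w) = fderiv ℝ g x w := by
    intro w
    have h1 : (fun x => g (a • x)) = g := funext fun x => hg a ha x
    have h := fderiv_comp_smul (𝕜 := ℝ) (f := g) (x := x) a
    rw [h1] at h
    rw [h, map_smul]
    rfl
  have h3 : fderiv ℝ g x x = 0 := by
    by_cases hd : DifferentiableAt ℝ g x
    · have h4 : HasDerivAt (fun s : ℝ => g (s • x)) (fderiv ℝ g x x) 1 := by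
        have h5 : HasDerivAt (fun s : ℝ => s • x) x 1 := by
          simpa using (hasDerivAt_id (1 : ℝ)).smul_const x
        have h6 : HasFDerivAt g (fderiv ℝ g x) ((1 : ℝ) • x) := by
          rw [one_smul]; exact hd.hasFDerivAt
        exact h6.comp_hasDerivAt (1 : ℝ) h5
      have h7 : (fun s : ℝ => g (s • x)) =ᶠ[nhds 1] fun _ => g x := by
        filter_upwards [lt_mem_nhds (show (0 : ℝ) < 1 by norm_num)] with s hs
        exact hg s hs x
      have h8 : HasDerivAt (fun s : ℝ => g (s • x)) 0 1 :=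
        (hasDerivAt_const (1 : ℝ) (g x)).congr_of_eventuallyEq h7
      exact h4.unique h8
    · rw [fderiv_zero_of_not_differentiableAt hd]; rfl
  rw [map_add, h2]
  have h4 : b • x = a • ((b / a) • x) := by rw [smul_smul]; field_simp
  rw [h4, h2, map_smul, h3, smul_zero, add_zero]

lemma fderiv_comp_neg' (g : E6 → ℝ) (x : E6) :
    fderiv ℝ (fun x => g (-x)) x = - fderiv ℝ g (-x) := by
  have h := fderiv_comp_smul (𝕜 := ℝ) (f := g) (x := x) (-1)
  simpa using h

lemma fderiv_even {g : E6 → ℝ} (hg : ∀ x, g (-x) = g x) (x w : E6) :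
    fderiv ℝ g (-x) (-w) = fderiv ℝ g x w := by
  have h1 : (fun x => g (-x)) = g := funext hg
  have h := fderiv_comp_neg' g x
  rw [h1] at h
  rw [h, map_neg]
  rfl

lemma fderiv_odd {g : E6 → ℝ} (hg : ∀ x, g (-x) = - g x) (x w : E6) :
    fderiv ℝ g (-x) (-w) = - fderiv ℝ g x w := by
  have h1 : (fun x => g (-x)) = fun x => - g x := funext hg
  have h := fderiv_comp_neg' g x
  rw [h1, fderiv_fun_neg] at h
  have h2 : fderiv ℝ g (-x) = fderiv ℝ g x := by
    have := congrArg (fun L => -L) h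
    simpa using this.symm
  rw [h2, map_neg]

end Pool.Agent.Lib_helper71.RP
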