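import Pool.Agent.Lib_helper71.RP.Defs

/-!
# Real projective space as a topological space, closed curves and contractibility
-/

namespace Pool.Agent.Lib_helper71.RP

open MeasureTheory Set
open scoped ContDiff ENNReal unitInterval

/-- Nonzero vectors of `ℝ^(n+1)`. -/
abbrev NZ (n : ℕ) : Type := {x : Fin (n + 1) → ℝ // x ≠ 0}

/-- Proportionality of nonzero vectors. -/
def propSetoid (n : ℕ) : Setoid (NZ n) where
  r x y := ∃ a : ℝ, a ≠ 0 ∧ y.1 = a • x.1
  iseqv :=
    { refl := fun x => ⟨1, one_ne_zero, (one_smul ℝ x.1).symm⟩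
      symm := by
        rintro x y ⟨a, ha, h⟩
        exact ⟨a⁻¹, inv_ne_zero ha, by rw [h, smul_smul, inv_mul_cancel₀ ha, one_smul]⟩
      trans := by
        rintro x y z ⟨a, ha, h⟩ ⟨b, hb, h'⟩
        exact ⟨b * a, mul_ne_zero hb ha, by rw [h', h, smul_smul]⟩ }

/-- Real projective space, with the quotient topology. -/
def RPn (n : ℕ) : Type := Quotient (propSetoid n)

instance (n : ℕ) : TopologicalSpace (RPn n) :=
  inferInstanceAs (TopologicalSpace (Quotient (propSetoid n)))

/-- The class `[x]` of a nonzero vector. -/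
def cls {n : ℕ} (x : NZ n) : RPn n := Quotient.mk (propSetoid n) x

lemma continuous_cls {n : ℕ} : Continuous (cls : NZ n → RPn n) := continuous_quotient_mk'

lemma cls_eq {n : ℕ} {x y : NZ n} {a : ℝ} (ha : a ≠ 0) (h : y.1 = a • x.1) : cls x = cls y :=
  Quotient.sound ⟨a, ha, h⟩

/-- A closed `C¹` curve of `RP^n`, given by a `C¹` lift `c` to the nonzero vectors. -/
structure IsClosedCurve (n : ℕ) (c : ℝ → (Fin (n + 1) → ℝ)) : Prop where
  smooth : ContDiff ℝ 1 c
  ne_zero : ∀ t : I, c t ≠ 0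
  closed : cls ⟨c ((1 : I) : ℝ), ne_zero 1⟩ = cls ⟨c ((0 : I) : ℝ), ne_zero 0⟩

/-- The closed curve `t ↦ [c t]` of `RP^n`. -/
def curve {n : ℕ} {c : ℝ → (Fin (n + 1) → ℝ)} (hc : IsClosedCurve n c) (t : I) : RPn n :=
  cls ⟨c t, hc.ne_zero t⟩

/-- A closed curve is contractible if it is freely homotopic, through closed curves, to a
constant curve. -/
def IsContractible {n : ℕ} (γ : I → RPn n) : Prop :=
  ∃ H : I × I → RPn n, Continuous H ∧ (∀ t, H (0, t) = γ t) ∧ (∀ s, H (s, 0) = H (s, 1)) ∧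
    ∃ p, ∀ t, H (1, t) = p

/-- A closed curve whose lift returns to a positive multiple is contractible. -/
lemma contractible_of_pos {n : ℕ} (hn : 2 ≤ n) {c : ℝ → (Fin (n + 1) → ℝ)}
    (hc : IsClosedCurve n c) {a : ℝ} (ha : 0 < a) (h : c 1 = a • c 0) :
    IsContractible (curve hc) := by
  -- normalise the lift
  let b : ℝ → ℝ := fun t => Real.exp (-(t * Real.log a))
  have hb : ContDiff ℝ 1 b := (Real.contDiff_exp.of_le le_top).comp (contDiff_id.mul contDiff_const).neg
  have hbpos : ∀ t, 0 < b t := fun t => Real.exp_pos _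
  let d : ℝ → (Fin (n + 1) → ℝ) := fun t => b t • c t
  have hd : ContDiff ℝ 1 d := hb.smul hc.smooth
  have hd0 : d 0 = c 0 := by simp [d, b]
  have hd1 : d 1 = d 0 := by
    rw [hd0]
    simp only [d, b, one_mul, h, smul_smul]
    rw [Real.exp_neg, Real.exp_log ha, inv_mul_cancel₀ ha.ne', one_smul]
  have hdne : ∀ t : I, d t ≠ 0 := fun t => smul_ne_zero (hbpos t).ne' (hc.ne_zero t)
  -- a direction which is not met
  let G : ℝ × ℝ → (Fin (n + 1) → ℝ) := fun p => p.1 • d p.2
  have hG : ContDiff ℝ 1 G := contDiff_fst.smul (hd.comp contDiff_snd)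
  have hdense : Dense (Set.range G)ᶜ := by
    apply hG.dense_compl_range_of_finrank_lt_finrank
    simp
    omega
  obtain ⟨v, hv⟩ := hdense.nonempty
  have hv' : ∀ s t : ℝ, v ≠ s • d t := fun s t he => hv ⟨(s, t), he.symm⟩
  have hne : ∀ p : I × I, (1 - (p.1 : ℝ)) • d p.2 + (p.1 : ℝ) • v ≠ 0 := by
    rintro ⟨s, t⟩ he
    simp only at he
    by_cases hs : (s : ℝ) = 0
    · rw [hs] at he
      simp at he
      exact hdne t he
    · apply hv' (-((1 - (s : ℝ)) / s)) t
      have h1 : (s : ℝ) • v = -((1 - (s : ℝ)) • d t) := eq_neg_of_add_eq_zero_right he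
      have h2 : v = (s : ℝ)⁻¹ • ((s : ℝ) • v) := by rw [smul_smul, inv_mul_cancel₀ hs, one_smul]
      rw [h2, h1, smul_neg, smul_smul, ← neg_smul]
      congr 1
      field_simp
  refine ⟨fun p => cls ⟨(1 - (p.1 : ℝ)) • d p.2 + (p.1 : ℝ) • v, hne p⟩, ?_, ?_, ?_, ?_⟩
  · apply continuous_cls.comp
    apply Continuous.subtype_mk
    have h1 : Continuous fun p : I × I => ((p.1 : ℝ)) := continuous_subtype_val.comp continuous_fst
    have h2 : Continuous fun p : I × I => ((p.2 : ℝ)) := continuous_subtype_val.comp continuous_snd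
    exact ((continuous_const.sub h1).smul (hd.continuous.comp h2)).add (h1.smul continuous_const)
  · intro t
    refine (cls_eq (hbpos t).ne' ?_).symm
    simp [d]
  · intro s
    have : (1 - (s : ℝ)) • d ((0 : I) : ℝ) + (s : ℝ) • v =
        (1 - (s : ℝ)) • d ((1 : I) : ℝ) + (s : ℝ) • v := by
      rw [Set.Icc.coe_zero, Set.Icc.coe_one, hd1]
    exact congrArg cls (Subtype.ext this)
  · refine ⟨cls ⟨v, fun h0 => hv' 0 0 (by rw [h0, zero_smul])⟩, fun t => ?_⟩
    have : (1 - ((1 : I) : ℝ)) • d t + ((1 : I) : ℝ) • v = v := by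
      rw [Set.Icc.coe_one, sub_self, zero_smul, one_smul, zero_add]
    exact congrArg cls (Subtype.ext this)

/-- A non-contractible closed curve has an odd lift. -/
lemma odd_of_not_contractible {n : ℕ} (hn : 2 ≤ n) {c : ℝ → (Fin (n + 1) → ℝ)}
    (hc : IsClosedCurve n c) (h : ¬ IsContractible (curve hc)) : IsOddLoop n c where
  smooth := hc.smooth
  ne_zero := fun t ht => hc.ne_zero ⟨t, ht⟩
  odd := by
    obtain ⟨a, ha, h1⟩ := Quotient.exact hc.closed
    simp only [Set.Icc.coe_zero, Set.Icc.coe_one] at h1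
    have h2 : c 1 = a⁻¹ • c 0 := by rw [h1, smul_smul, inv_mul_cancel₀ ha, one_smul]
    refine ⟨a⁻¹, ?_, h2⟩
    rcases lt_or_gt_of_ne (inv_ne_zero ha) with h3 | h3
    · exact h3
    · exact absurd (contractible_of_pos hn hc h3 h2) h

end Pool.Agent.Lib_helper71.RP
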