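import Pool.Agent.Lib_helper71.RP.Vol
import Pool.Agent.Lib_helper71.RP.Topo
import Pool.Agent.Lib_helper91.RP.Polar
import Pool.Agent.Lib_helper91.RP.Inj

/-!
# Assembly
-/

namespace Pool.Agent.Lib_helper71.RP

open MeasureTheory Set
open scoped ContDiff ENNReal

lemma goodInj : GoodInj := fun _ _ h1 h2 h3 h4 h5 h6 h7 h8 =>
  Lib_helper91.RP.good_inj h1 h2 h3 h4 h5 h6 h7 h8

/-- Metrics on `RP^5` with systole at least one and small volume. -/
theorem exists_metric {b : ℝ≥0∞} (hb : ENNReal.ofReal (1 / 5) < b) :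
    ∃ F : (Fin (5 + 1) → ℝ) → (Fin (5 + 1) → ℝ) → ℝ, IsFinslerRP 5 F ∧
      (∃ e > 0, ∀ x w w', x ≠ 0 → F x (w + w') - e * rho x (w + w') ≤
        (F x w - e * rho x w) + (F x w' - e * rho x w')) ∧
      (∀ c, IsOddLoop 5 c → 1 ≤ len F c) ∧ polarVol F < b :=
  Lib_helper91.RP.reduction isForms sysGeOne ((vol_total goodInj).trans_lt hb)

end Pool.Agent.Lib_helper71.RP
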