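import Pool.Agent.Lib_helper71.RP.Sys

/-!
# Outside the good region the forms span a space of dimension at most four
-/

namespace Pool.Agent.Lib_helper71.RP

open MeasureTheory Set Filter Topology
open scoped ContDiff ENNReal

lemma fd_zero {g : E6 → ℝ} {x : E6} (h : ∀ w, 0 ≤ g w) (h0 : g x = 0) : fderiv ℝ g x = 0 := by
  apply IsLocalMin.fderiv_eq_zero
  exact Eventually.of_forall fun w => by rw [h0]; exact h w

/-- Dominated by a function with a vanishing minimum. -/
lemma fd_zero_of_abs_le {g τ : E6 → ℝ} {x : E6} (hτ : DifferentiableAt ℝ τ x)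
    (hg : DifferentiableAt ℝ g x) (h : ∀ w, |g w| ≤ τ w) (h0 : τ x = 0) :
    fderiv ℝ g x = 0 := by
  have hg0 : g x = 0 := by
    have := h x
    rw [h0] at this
    exact abs_nonpos_iff.1 this
  have h1 : fderiv ℝ (fun w => τ w + g w) x = 0 :=
    fd_zero (fun w => by linarith [neg_abs_le (g w), h w]) (by rw [h0, hg0]; norm_num)
  have h2 : fderiv ℝ τ x = 0 :=
    fd_zero (fun w => (abs_nonneg _).trans (h w)) h0
  rw [fderiv_fun_add hτ hg, h2, zero_add] at h1
  exact h1

lemma norm_uu_le (j : Fin 3) (x : E6) : ‖uu j x‖ ≤ 1 := by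
  by_cases hz : zc j x = 0
  · rw [uu, hz]; simp
  · rw [norm_uu j hz]

lemma norm_pp_le (j : Fin 3) (x : E6) : ‖pp j x‖ ≤ tt j x := by
  rw [pp, norm_mul, Complex.norm_real, Real.norm_eq_abs, abs_of_nonneg (tt_nonneg j)]
  exact mul_le_of_le_one_right (tt_nonneg j) (norm_uu_le j x)

lemma fd_tt_zero {j : Fin 3} {x : E6} (h : tt j x = 0) : fderiv ℝ (tt j) x = 0 :=
  fd_zero (fun _ => tt_nonneg j) h

lemma fd_ppre_zero {j : Fin 3} {x : E6} (hx : x ≠ 0) (h : tt j x = 0) :
    fderiv ℝ (fun x => (pp j x).re) x = 0 :=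
  fd_zero_of_abs_le ((cd_tt j hx).differentiableAt (by simp))
    ((cd_ppre j hx).differentiableAt (by simp))
    (fun w => (Complex.abs_re_le_norm _).trans (norm_pp_le j w)) h

lemma fd_ppim_zero {j : Fin 3} {x : E6} (hx : x ≠ 0) (h : tt j x = 0) :
    fderiv ℝ (fun x => (pp j x).im) x = 0 :=
  fd_zero_of_abs_le ((cd_tt j hx).differentiableAt (by simp))
    ((cd_ppim j hx).differentiableAt (by simp))
    (fun w => (Complex.abs_im_le_norm _).trans (norm_pp_le j w)) h

lemma fd_psi_zero {x : E6} (h : 1 ≤ |yy x|) : fderiv ℝ psi x = 0 := by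
  rcases le_abs.1 h with h1 | h1
  · apply IsLocalMax.fderiv_eq_zero
    exact Eventually.of_forall fun w => by rw [psi_of_ge h1]; exact psi_le_one w
  · apply IsLocalMin.fderiv_eq_zero
    exact Eventually.of_forall fun w => by
      rw [psi_of_le (x := x) (by linarith)]; exact neg_one_le_psi w

lemma fd_rr_zero {x : E6} (h : rr x = 0) : fderiv ℝ rr x = 0 := fd_zero rr_nonneg h

/-- There are four functionals such that all forms vanish on their common kernel. -/
def LowRank (x : E6) : Prop :=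
  ∃ g : Fin 4 → (E6 →L[ℝ] ℝ), ∀ w : E6, (∀ m, g m w = 0) → ∀ i, forms i x w = 0

lemma fA_vanish {x w : E6} (h1 : ∀ j, rr x < 1 → Om j x w = 0) (j : Fin 3) :
    fA j x w = 0 := by
  rw [fA_apply]
  by_cases h : rr x < 1
  · rw [h1 j h, mul_zero]
  · rw [c1_zero (by linarith), zero_mul]

lemma Om_third {x w : E6} (hx : x ≠ 0) (h : rr x < 1) {j : Fin 3} (h1 : Om (j + 1) x w = 0)
    (h2 : Om (j + 2) x w = 0) : ∀ k, Om k x w = 0 := by
  have h3 := sum_Om hx h
  rw [sum_fin3 _ j] at h3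
  have h4 := congrArg (fun L : E6 →L[ℝ] ℝ => L w) h3
  simp only [add_apply, zero_apply, h1, h2, add_zero] at h4
  intro k
  rcases fin3_mem k j with rfl | rfl | rfl
  exacts [h4, h1, h2]

/-- Case alpha. -/
lemma lowRank_alpha {x : E6} (hx : x ≠ 0) (h : 1 ≤ |yy x|) : LowRank x := by
  refine ⟨![Om 1 x, Om 2 x, fderiv ℝ rr x, 0], ?_⟩
  intro w hw i
  have w0 : Om 1 x w = 0 := hw 0
  have w1 : Om 2 x w = 0 := hw 1
  have w2 : fderiv ℝ rr x w = 0 := hw 2
  have htt : ∀ j, tt j x = 0 := fun j => tt_zero' h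
  rcases i with (j | e) | (q | (q | (q | q)))
  · exact fA_vanish (fun j hr => Om_third hx hr (j := 0) w0 w1 j) j
  · change fB e x w = 0
    rw [fB_apply]
    simp [fd_tt_zero (htt _)]
  · change fC q x w = 0
    rw [fC_apply, w2, mul_zero]
  · change fD q x w = 0
    rw [fD_apply, fd_ppre_zero hx (htt _)]; simp
  · change fE q x w = 0
    rw [fE_apply, fd_ppim_zero hx (htt _)]; simp
  · change fG q x w = 0
    rw [fG_apply, fd_psi_zero h]; simp

/-- Case beta. -/
lemma lowRank_beta {x : E6} (hx : x ≠ 0) (h : |yy x| < 1) {j : Fin 3} (hj : r j x ≤ 1 / 4)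
    (h1 : 1 / 4 < r (j + 1) x) (h2 : 1 / 4 < r (j + 2) x) : LowRank x := by
  refine ⟨![Om (j + 1) x, Om (j + 2) x, fderiv ℝ (tt (j + 1)) x, fderiv ℝ (tt (j + 2)) x], ?_⟩
  intro w hw i
  have w0 : Om (j + 1) x w = 0 := hw 0
  have w1 : Om (j + 2) x w = 0 := hw 1
  have w2 : fderiv ℝ (tt (j + 1)) x w = 0 := hw 2
  have w3 : fderiv ℝ (tt (j + 2)) x w = 0 := hw 3
  have w4 : fderiv ℝ (tt j) x w = 0 := by rw [fd_tt_zero (tt_zero hj)]; rfl
  have hrr : rr x = 0 := by
    apply rr_zero h.le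
    intro k
    rcases fin3_mem k j with rfl | rfl | rfl
    · exact Or.inl h1.le
    · rw [(fin3_cases j).1]; exact Or.inl h2.le
    · rw [(fin3_cases j).2.2.2]; exact Or.inr h1.le
  have hc2 : c2 x = 0 := c2_zero hrr.le
  rcases i with (k | e) | (q | (q | (q | q)))
  · exact fA_vanish (fun k hr => Om_third hx hr w0 w1 k) k
  · change fB e x w = 0
    rw [fB_apply, sum_fin3 _ j, w2, w3, w4]; simp
  · change fC q x w = 0
    rw [fC_apply, fd_rr_zero hrr]; simp
  · change fD q x w = 0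
    rw [fD_apply, hc2]; simp
  · change fE q x w = 0
    rw [fE_apply, hc2]; simp
  · change fG q x w = 0
    rw [fG_apply, hc2]; simp

/-- Case gamma. -/
lemma lowRank_gamma {x : E6} (hx : x ≠ 0) (h : |yy x| < 1) {k : Fin 3}
    (h1 : r (k + 1) x ≤ 1 / 4) (h2 : r (k + 2) x ≤ 1 / 4) : LowRank x := by
  have hk : 1 / 2 ≤ r k x := by
    have := r_sum' hx k
    linarith
  refine ⟨![om k x, Om (k + 1) x, fderiv ℝ psi x, fderiv ℝ rr x], ?_⟩
  intro w hw i
  have w0 : om k x w = 0 := hw 0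
  have w1 : Om (k + 1) x w = 0 := hw 1
  have w2 : fderiv ℝ psi x w = 0 := hw 2
  have w3 : fderiv ℝ rr x w = 0 := hw 3
  have t1 := tt_zero h1
  have t2 := tt_zero h2
  have w4 : fderiv ℝ (tt k) x w = 0 := by
    have e1 : (fun x => ∑ j, tt j x) =ᶠ[𝓝 x] mu := by
      filter_upwards [ne_zero_nhds hx] with y hy
      exact tt_sum hy
    have e2 : fderiv ℝ (fun x => ∑ j, tt j x) x = ∑ j, fderiv ℝ (tt j) x :=
      fderiv_fun_sum fun j _ => (cd_tt j hx).differentiableAt (by simp)
    have e3 : fderiv ℝ mu x w = 0 := by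
      have hd : DifferentiableAt ℝ psi x := (cd_psi hx).differentiableAt (by simp)
      have e4 : HasFDerivAt mu (-((2 * psi x) • fderiv ℝ psi x)) x := by
        have e5 := (hd.hasFDerivAt.pow 2).const_sub 1
        refine e5.congr_fderiv ?_
        simp
      rw [e4.fderiv]
      simp [w2]
    rw [e1.fderiv_eq, sum_fin3 _ k, fd_tt_zero t1, fd_tt_zero t2, add_zero, add_zero] at e2
    rw [← e2]; exact e3
  have hz : zc k x ≠ 0 := (r_pos_iff hx k).1 (by linarith)
  have hpp : DifferentiableAt ℝ (pp k) x := (cd_pp k hx).differentiableAt (by simp)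
  have w5 : fderiv ℝ (pp k) x w = 0 := by
    let c : ℝ → E6 := fun s => x + s • w
    have hc : ContDiff ℝ 1 c := contDiff_const.add (contDiff_id.smul contDiff_const)
    have hc0 : c 0 = x := by simp [c]
    have hcd : HasDerivAt c w 0 := by
      simpa [c] using ((hasDerivAt_id (0 : ℝ)).smul_const w).const_add x
    have e1 := path_uu hc k (t := 0) (by rwa [hc0]) (by rw [hc0]; linarith) (by rwa [hc0])
    rw [hcd.deriv, hc0, w0] at e1
    have e2 := (path_deriv hc (t := 0) (g := tt k)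
      (by rw [hc0]; exact (cd_tt k hx).differentiableAt (by simp))).ofReal_comp
    rw [hcd.deriv, hc0, w4] at e2
    have e3 : HasDerivAt (fun s => pp k (c s)) _ 0 := e2.mul e1
    have e4 : HasFDerivAt (pp k) (fderiv ℝ (pp k) x) (c 0) := by
      rw [hc0]; exact hpp.hasFDerivAt
    have e5 : HasDerivAt (fun s => pp k (c s)) (fderiv ℝ (pp k) x w) 0 :=
      e4.comp_hasDerivAt (0 : ℝ) hcd
    rw [e5.unique e3]
    simp
  have w6 : fderiv ℝ (fun x => (pp k x).re) x w = 0 := by
    have : HasFDerivAt (fun x => (pp k x).re) (Complex.reCLM.comp (fderiv ℝ (pp k) x)) x :=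
      Complex.reCLM.hasFDerivAt.comp x hpp.hasFDerivAt
    rw [this.fderiv]
    simp [w5]
  have w7 : fderiv ℝ (fun x => (pp k x).im) x w = 0 := by
    have : HasFDerivAt (fun x => (pp k x).im) (Complex.imCLM.comp (fderiv ℝ (pp k) x)) x :=
      Complex.imCLM.hasFDerivAt.comp x hpp.hasFDerivAt
    rw [this.fderiv]
    simp [w5]
  rcases i with (j | e) | (q | (q | (q | q)))
  · refine fA_vanish (fun j hr => ?_) j
    have e1 : Om k x w = 0 := by rw [Om_eq_om hx hr (by linarith)]; exact w0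
    have e2 := Om_third hx hr (j := k + 2)
      (by rw [(fin3_cases k).2.2.1]; exact e1) (by rw [(fin3_cases k).2.2.2]; exact w1)
    exact e2 j
  · change fB e x w = 0
    rw [fB_apply, sum_fin3 _ k, w4, fd_tt_zero t1, fd_tt_zero t2]; simp
  · change fC q x w = 0
    rw [fC_apply, w3, mul_zero]
  · change fD q x w = 0
    rw [fD_apply]
    rcases fin3_mem q.2 k with e1 | e1 | e1 <;> rw [e1]
    · rw [w6, mul_zero]
    · rw [fd_ppre_zero hx t1]; simp
    · rw [fd_ppre_zero hx t2]; simp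
  · change fE q x w = 0
    rw [fE_apply]
    rcases fin3_mem q.2 k with e1 | e1 | e1 <;> rw [e1]
    · rw [w7, mul_zero]
    · rw [fd_ppim_zero hx t1]; simp
    · rw [fd_ppim_zero hx t2]; simp
  · change fG q x w = 0
    rw [fG_apply, w2, mul_zero]

/-- The good region. -/
def Good (x : E6) : Prop := |yy x| < 1 ∧ ∀ j, 1 / 4 < r j x

lemma lowRank_of_not_good {x : E6} (hx : x ≠ 0) (h : ¬ Good x) : LowRank x := by
  by_cases hy : 1 ≤ |yy x|
  · exact lowRank_alpha hx hy
  · have hy' : |yy x| < 1 := not_le.1 hy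
    have : ∃ j, r j x ≤ 1 / 4 := by
      by_contra hcon
      push Not at hcon
      exact h ⟨hy', hcon⟩
    obtain ⟨j, hj⟩ := this
    by_cases h1 : r (j + 1) x ≤ 1 / 4
    · refine lowRank_gamma hx hy' (k := j + 2) ?_ ?_
      · rwa [(fin3_cases j).2.2.1]
      · rwa [(fin3_cases j).2.2.2]
    · by_cases h2 : r (j + 2) x ≤ 1 / 4
      · refine lowRank_gamma hx hy' (k := j + 1) ?_ ?_
        · rwa [(fin3_cases j).1]
        · rwa [(fin3_cases j).2.1]
      · exact lowRank_beta hx hy' hj (not_le.1 h1) (not_le.1 h2)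

end Pool.Agent.Lib_helper71.RP
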