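import Pool.Agent.Lib_helper71.RP.Fun

/-!
# Smoothness of the concrete functions
-/

namespace Pool.Agent.Lib_helper71.RP

open MeasureTheory Set Filter Topology
open scoped ContDiff ENNReal

lemma cd_re (j : Fin 3) : ContDiff ℝ ∞ fun x : E6 => (zc j x).re :=
  Complex.reCLM.contDiff.comp (zc j).contDiff
lemma cd_im (j : Fin 3) : ContDiff ℝ ∞ fun x : E6 => (zc j x).im :=
  Complex.imCLM.contDiff.comp (zc j).contDiff

lemma cd_normSq (j : Fin 3) : ContDiff ℝ ∞ fun x : E6 => Complex.normSq (zc j x) := by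
  simp only [Complex.normSq_apply]
  exact ((cd_re j).mul (cd_re j)).add ((cd_im j).mul (cd_im j))

lemma cd_nn : ContDiff ℝ ∞ nn := by
  have : nn = fun x => ∑ j, Complex.normSq (zc j x) := rfl
  rw [this]
  exact ContDiff.sum fun j _ => cd_normSq j

lemma cd_pr : ContDiff ℝ ∞ pr :=
  (((zc 0).contDiff.mul (zc 1).contDiff).mul (zc 2).contDiff)

lemma cd_r (j : Fin 3) {x : E6} (hx : x ≠ 0) : ContDiffAt ℝ ∞ (r j) x :=
  (cd_normSq j).contDiffAt.div cd_nn.contDiffAt (nn_pos hx).ne'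

lemma cd_yy {x : E6} (hx : x ≠ 0) : ContDiffAt ℝ ∞ yy x := by
  have h := nn_pos hx
  have h1 : ContDiffAt ℝ ∞ (fun x => 54 * (pr x).im) x :=
    contDiffAt_const.mul (Complex.imCLM.contDiff.comp cd_pr).contDiffAt
  have h2 : ContDiffAt ℝ ∞ (fun x => Real.sqrt (nn x) ^ 3) x :=
    (cd_nn.contDiffAt.sqrt h.ne').pow 3
  exact h1.div h2 (pow_ne_zero _ (Real.sqrt_pos.2 h).ne')

lemma cd_st {g : E6 → ℝ} {x : E6} (hg : ContDiffAt ℝ ∞ g x) :
    ContDiffAt ℝ ∞ (fun x => Real.smoothTransition (g x)) x :=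
  Real.smoothTransition.contDiff.contDiffAt.comp x hg

lemma cd_psi {x : E6} (hx : x ≠ 0) : ContDiffAt ℝ ∞ psi x :=
  (contDiffAt_const.mul (cd_st (((cd_yy hx).add contDiffAt_const).div_const 2))).sub
    contDiffAt_const

lemma cd_bb {x : E6} (hx : x ≠ 0) : ContDiffAt ℝ ∞ bb x :=
  cd_st ((((cd_yy hx).pow 2).sub contDiffAt_const).div_const 3)

lemma cd_mu {x : E6} (hx : x ≠ 0) : ContDiffAt ℝ ∞ mu x :=
  contDiffAt_const.sub ((cd_psi hx).pow 2)

lemma cd_eta {g : E6 → ℝ} {x : E6} (hg : ContDiffAt ℝ ∞ g x) :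
    ContDiffAt ℝ ∞ (fun x => eta (g x)) x :=
  (expNegInvGlue.contDiff (n := ⊤)).contDiffAt.comp x (hg.sub contDiffAt_const)

lemma cd_sh {x : E6} (hx : x ≠ 0) : ContDiffAt ℝ ∞ sh x := by
  have : sh = fun x => ∑ j, eta (r j x) := rfl
  rw [this]
  exact ContDiffAt.sum fun j _ => cd_eta (cd_r j hx)

lemma cd_tt (j : Fin 3) {x : E6} (hx : x ≠ 0) : ContDiffAt ℝ ∞ (tt j) x :=
  (cd_mu hx).mul ((cd_eta (cd_r j hx)).div (cd_sh hx) (sh_pos hx).ne')

lemma cd_chi {g : E6 → ℝ} {x : E6} (hg : ContDiffAt ℝ ∞ g x) :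
    ContDiffAt ℝ ∞ (fun x => chi (g x)) x :=
  cd_st ((contDiffAt_const.mul hg).sub contDiffAt_const)

lemma cd_chi4 {g : E6 → ℝ} {x : E6} (hg : ContDiffAt ℝ ∞ g x) :
    ContDiffAt ℝ ∞ (fun x => chi4 (g x)) x :=
  cd_st ((contDiffAt_const.mul hg).sub contDiffAt_const)

lemma cd_xx {x : E6} (hx : x ≠ 0) : ContDiffAt ℝ ∞ xx x := by
  have : xx = fun x => ∏ j, chi (r j x) := rfl
  rw [this]
  exact contDiffAt_prod fun j _ => cd_chi (cd_r j hx)

lemma cd_dk (k : Fin 3) {x : E6} (hx : x ≠ 0) : ContDiffAt ℝ ∞ (dk k) x :=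
  (contDiffAt_const.sub (cd_chi4 (cd_r _ hx))).mul (contDiffAt_const.sub (cd_chi4 (cd_r _ hx)))

lemma cd_rr {x : E6} (hx : x ≠ 0) : ContDiffAt ℝ ∞ rr x :=
  contDiffAt_const.sub ((contDiffAt_const.sub (cd_bb hx)).mul
    (contDiffAt_prod fun k _ => contDiffAt_const.sub (cd_dk k hx)))

lemma cd_c1 {x : E6} (hx : x ≠ 0) : ContDiffAt ℝ ∞ c1 x :=
  contDiffAt_const.sub (cd_st ((contDiffAt_const.mul (cd_rr hx)).sub contDiffAt_const))

lemma cd_c2 {x : E6} (hx : x ≠ 0) : ContDiffAt ℝ ∞ c2 x :=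
  cd_st (contDiffAt_const.mul (cd_rr hx))

lemma cd_dd {x : E6} (hx : (pr x).re ≠ 0) : ContDiffAt ℝ ∞ dd x := by
  have h1 : ContDiffAt ℝ ∞ (fun x => (pr x).im) x :=
    (Complex.imCLM.contDiff.comp cd_pr).contDiffAt
  have h2 : ContDiffAt ℝ ∞ (fun x => (pr x).re) x :=
    (Complex.reCLM.contDiff.comp cd_pr).contDiffAt
  exact (Real.contDiff_arctan.contDiffAt.comp x (h1.div h2 hx)).div_const _

lemma cd_xd {x : E6} (hx : x ≠ 0) (hy : |yy x| < 2) : ContDiffAt ℝ ∞ xd x := by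
  by_cases h : ∃ k, r k x < 1 / 9
  · obtain ⟨k, hk⟩ := h
    have : xd =ᶠ[𝓝 x] fun _ => 0 := by
      filter_upwards [(cd_r k hx).continuousAt.eventually_lt_const hk] with w hw
      rw [xd, xx_zero hw.le, zero_mul]
    exact contDiffAt_const.congr_of_eventuallyEq this
  · push Not at h
    exact (cd_xx hx).mul (cd_dd (re_pr_ne hx h hy))

lemma cd_uu (j : Fin 3) {x : E6} (hx : x ≠ 0) (hy : |yy x| < 2) (hz : zc j x ≠ 0) :
    ContDiffAt ℝ ∞ (uu j) x := by
  have h1 : ContDiffAt ℝ ∞ (fun x : E6 => (‖zc j x‖ : ℂ)) x :=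
    Complex.ofRealCLM.contDiff.contDiffAt.comp x ((zc j).contDiff.contDiffAt.norm ℝ hz)
  have h2 : ContDiffAt ℝ ∞ (fun x : E6 => ((-(Real.pi * sw j * xd x) : ℝ) : ℂ)) x :=
    Complex.ofRealCLM.contDiff.contDiffAt.comp x (contDiffAt_const.mul (cd_xd hx hy)).neg
  have h3 : (‖zc j x‖ : ℂ) ≠ 0 := Complex.ofReal_ne_zero.2 (norm_ne_zero_iff.2 hz)
  have h4 : ContDiffAt ℝ ∞ (fun x : E6 => zc j x / (‖zc j x‖ : ℂ)) x := by
    simp only [div_eq_mul_inv]
    exact (zc j).contDiff.contDiffAt.mul (h1.inv h3)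
  exact h4.mul (h2.mul contDiffAt_const).cexp

lemma ne_zero_nhds {x : E6} (hx : x ≠ 0) : ∀ᶠ w in 𝓝 x, w ≠ 0 := isOpen_ne.mem_nhds hx

lemma cd_pp (j : Fin 3) {x : E6} (hx : x ≠ 0) : ContDiffAt ℝ ∞ (pp j) x := by
  by_cases h : 1 < |yy x|
  · have : pp j =ᶠ[𝓝 x] fun _ => 0 := by
      filter_upwards [(cd_yy hx).continuousAt.abs.eventually_const_lt h] with w hw
      rw [pp, tt_zero' hw.le]; simp
    exact contDiffAt_const.congr_of_eventuallyEq this
  · by_cases h2 : r j x < 1 / 4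
    · have : pp j =ᶠ[𝓝 x] fun _ => 0 := by
        filter_upwards [(cd_r j hx).continuousAt.eventually_lt_const h2] with w hw
        rw [pp, tt_zero hw.le]; simp
      exact contDiffAt_const.congr_of_eventuallyEq this
    · have h3 : zc j x ≠ 0 := (r_pos_iff hx j).1 (by linarith)
      exact (Complex.ofRealCLM.contDiff.contDiffAt.comp x (cd_tt j hx)).mul
        (cd_uu j hx (by linarith) h3)

lemma cd_theta (j : Fin 3) {x : E6} (hz : zc j x ≠ 0) : ContDiffAt ℝ ∞ (theta j) x := by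
  have h1 : ContDiffAt ℝ ∞ (fun x : E6 => (zc j x)⁻¹) x := (zc j).contDiff.contDiffAt.inv hz
  have h2 : ContDiffAt ℝ ∞ (fun x : E6 => (zc j x)⁻¹ • zc j) x := h1.smul contDiffAt_const
  have h3 : ContDiffAt ℝ ∞ (fun x : E6 => Complex.imCLM.comp ((zc j x)⁻¹ • zc j)) x :=
    contDiffAt_const.clm_comp h2
  exact h3.const_smul (1 / Real.pi)

lemma cd_fderiv {g : E6 → ℝ} {x : E6} (hg : ContDiffAt ℝ ∞ g x) :
    ContDiffAt ℝ ∞ (fderiv ℝ g) x := hg.fderiv_right (by simp)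

lemma cd_om (j : Fin 3) {x : E6} (hx : x ≠ 0) (hy : |yy x| < 2) (hz : zc j x ≠ 0) :
    ContDiffAt ℝ ∞ (om j) x :=
  (cd_theta j hz).sub ((cd_fderiv (cd_xd hx hy)).const_smul (sw j))

/-- Directional derivatives compute the Fréchet derivative. -/
lemma fderiv_of_line {g : E6 → ℝ} {x : E6} (hg : DifferentiableAt ℝ g x) {w : E6} {a : ℝ}
    (h : HasDerivAt (fun s : ℝ => g (x + s • w)) a 0) : fderiv ℝ g x w = a := by
  have h5 : HasDerivAt (fun s : ℝ => x + s • w) w 0 := by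
    simpa using ((hasDerivAt_id (0 : ℝ)).smul_const w).const_add x
  have h6 : HasFDerivAt g (fderiv ℝ g x) (x + (0 : ℝ) • w) := by
    rw [zero_smul, add_zero]; exact hg.hasFDerivAt
  exact (h6.comp_hasDerivAt (0 : ℝ) h5).unique h

lemma hasDerivAt_arg_quot {p : ℝ → ℂ} {p' : ℂ} {t : ℝ} (hp : HasDerivAt p p' t)
    (h : (p t).re ≠ 0) :
    HasDerivAt (fun t => Real.arctan ((p t).im / (p t).re)) ((p t)⁻¹ * p').im t := by
  have h1 : HasDerivAt (fun t => (p t).im) p'.im t :=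
    Complex.imCLM.hasFDerivAt.comp_hasDerivAt t hp
  have h2 : HasDerivAt (fun t => (p t).re) p'.re t :=
    Complex.reCLM.hasFDerivAt.comp_hasDerivAt t hp
  have h3 : HasDerivAt (fun t => Real.arctan ((p t).im / (p t).re)) _ t := (h1.div h2 h).arctan
  refine h3.congr_deriv ?_
  simp only [Pi.div_apply]
  rw [Complex.mul_im, Complex.inv_re, Complex.inv_im, Complex.normSq_apply]
  have h4 : 0 < (p t).re ^ 2 := by positivity
  have h5 : (p t).re * (p t).re + (p t).im * (p t).im ≠ 0 := by nlinarith [sq_nonneg (p t).im]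
  have h6 : 1 + ((p t).im / (p t).re) ^ 2 ≠ 0 := by positivity
  field_simp
  ring

lemma line_zc (j : Fin 3) (x w : E6) :
    HasDerivAt (fun s : ℝ => zc j (x + s • w)) (zc j w) 0 := by
  have h5 : HasDerivAt (fun s : ℝ => x + s • w) w 0 := by
    simpa using ((hasDerivAt_id (0 : ℝ)).smul_const w).const_add x
  exact (zc j).hasFDerivAt.comp_hasDerivAt 0 h5

lemma pr_ne {x : E6} (h : ∀ j, zc j x ≠ 0) : pr x ≠ 0 :=
  mul_ne_zero (mul_ne_zero (h 0) (h 1)) (h 2)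

lemma fderiv_dd {x : E6} (hre : (pr x).re ≠ 0) (w : E6) :
    fderiv ℝ dd x w = theta 0 x w + theta 1 x w + theta 2 x w := by
  have hz : pr x ≠ 0 := fun h => hre (by rw [h]; rfl)
  have hz2 : zc 2 x ≠ 0 := right_ne_zero_of_mul hz
  have hz1 : zc 1 x ≠ 0 := right_ne_zero_of_mul (left_ne_zero_of_mul hz)
  have hz0 : zc 0 x ≠ 0 := left_ne_zero_of_mul (left_ne_zero_of_mul hz)
  have hd : DifferentiableAt ℝ dd x := (cd_dd hre).differentiableAt (by simp)
  apply fderiv_of_line hd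
  have h1 : HasDerivAt (fun s : ℝ => pr (x + s • w))
      ((zc 0 w * zc 1 x + zc 0 x * zc 1 w) * zc 2 x + zc 0 x * zc 1 x * zc 2 w) 0 := by
    have h3 : HasDerivAt (fun s : ℝ => pr (x + s • w)) _ 0 :=
      ((line_zc 0 x w).mul (line_zc 1 x w)).mul (line_zc 2 x w)
    refine h3.congr_deriv ?_
    simp
  have hre' : (pr (x + (0 : ℝ) • w)).re ≠ 0 := by rwa [zero_smul, add_zero]
  have h2 : HasDerivAt (fun s : ℝ => dd (x + s • w)) _ 0 :=
    (hasDerivAt_arg_quot h1 hre').div_const Real.pi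
  refine h2.congr_deriv (Eq.symm ?_)
  simp only [theta, smul_apply, ContinuousLinearMap.comp_apply, Complex.imCLM_apply, smul_eq_mul,
    zero_smul, add_zero]
  rw [show ∀ a b c : ℝ, 1 / Real.pi * a + 1 / Real.pi * b + 1 / Real.pi * c =
    (a + b + c) / Real.pi by intro a b c; ring]
  congr 1
  rw [← Complex.add_im, ← Complex.add_im]
  congr 1
  rw [pr]
  field_simp

lemma fin3_cases (j : Fin 3) : j + 1 + 1 = j + 2 ∧ j + 1 + 2 = j ∧ j + 2 + 1 = j ∧
    j + 2 + 2 = j + 1 := by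
  fin_cases j <;> decide

lemma fin3_mem : ∀ k j : Fin 3, k = j ∨ k = j + 1 ∨ k = j + 2 := by decide

lemma sum_fin3 {M : Type*} [AddCommGroup M] (f : Fin 3 → M) (j : Fin 3) :
    ∑ i, f i = f j + f (j + 1) + f (j + 2) := by
  rw [Fin.sum_univ_three]
  fin_cases j <;> simp <;> abel

lemma sum_sw : ∑ j, sw j = 1 := by
  rw [Fin.sum_univ_three]; simp [sw]

lemma sum_om {x : E6} (hx : x ≠ 0) (hy : |yy x| < 2) (hr : ∀ k, 1 / 6 < r k x) :
    ∑ j, om j x = 0 := by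
  have hre : (pr x).re ≠ 0 := re_pr_ne hx (fun k => by linarith [hr k]) hy
  have h1 : xd =ᶠ[𝓝 x] dd := by
    have h2 : ∀ᶠ w in 𝓝 x, ∀ k, 1 / 6 < r k w :=
      eventually_all.2 fun k => (cd_r k hx).continuousAt.eventually_const_lt (hr k)
    filter_upwards [h2] with w hw
    rw [xd, xx_one (fun k => (hw k).le), one_mul]
  ext w
  simp only [om]
  rw [Finset.sum_sub_distrib, ← Finset.sum_smul, sum_sw, one_smul, h1.fderiv_eq]
  simp only [sub_apply, zero_apply, fderiv_dd hre, Fin.sum_univ_three, add_apply]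
  ring

lemma Om_eq_om {x : E6} (hx : x ≠ 0) (h : rr x < 1) {j : Fin 3} (hj : 1 / 6 < r j x) :
    Om j x = om j x := by
  rw [Om]
  split_ifs with hc
  · have hs : ∑ j, om j x = 0 := by
      apply sum_om hx (yy_lt_of_rr h)
      intro k
      rcases fin3_mem k j with rfl | rfl | rfl
      exacts [hj, hc.1, hc.2]
    rw [sum_fin3 _ j] at hs
    rw [eq_comm, ← sub_eq_zero]
    rw [← hs]; abel
  · rfl

lemma Om_eq_neg {x : E6} {j : Fin 3} (h1 : 1 / 6 < r (j + 1) x) (h2 : 1 / 6 < r (j + 2) x) :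
    Om j x = - om (j + 1) x - om (j + 2) x := by
  rw [Om, if_pos ⟨h1, h2⟩]

lemma r_gt_or {x : E6} (h : rr x < 1) (j : Fin 3) :
    1 / 6 < r j x ∨ (1 / 6 < r (j + 1) x ∧ 1 / 6 < r (j + 2) x) := by
  by_cases hj : 1 / 6 < r j x
  · exact Or.inl hj
  · right
    have h1 := r_gt_of_rr h (j + 1)
    have h2 := r_gt_of_rr h (j + 2)
    rw [(fin3_cases j).1, (fin3_cases j).2.1] at h1
    rw [(fin3_cases j).2.2.1, (fin3_cases j).2.2.2] at h2
    exact ⟨h2.resolve_left hj, h1.resolve_right hj⟩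

lemma sum_Om {x : E6} (hx : x ≠ 0) (h : rr x < 1) : ∑ j, Om j x = 0 := by
  by_cases hall : ∀ k, 1 / 6 < r k x
  · rw [Finset.sum_congr rfl fun j _ => Om_eq_om hx h (hall j)]
    exact sum_om hx (yy_lt_of_rr h) hall
  · push Not at hall
    obtain ⟨j, hj⟩ := hall
    obtain ⟨h1, h2⟩ := (r_gt_or h j).resolve_left (not_lt.2 hj)
    rw [sum_fin3 _ j, Om_eq_neg h1 h2, Om_eq_om hx h h1, Om_eq_om hx h h2]
    abel

lemma cd_c1Om (j : Fin 3) {x : E6} (hx : x ≠ 0) :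
    ContDiffAt ℝ ∞ (fun x => c1 x • Om j x) x := by
  by_cases h : 7 / 8 < rr x
  · have : (fun x => c1 x • Om j x) =ᶠ[𝓝 x] fun _ => 0 := by
      filter_upwards [(cd_rr hx).continuousAt.eventually_const_lt h] with w hw
      rw [c1_zero hw.le, zero_smul]
    exact contDiffAt_const.congr_of_eventuallyEq this
  · have h1 : rr x < 1 := by linarith
    have hy := yy_lt_of_rr h1
    have hn := (cd_rr hx).continuousAt.eventually_lt_const h1
    refine (cd_c1 hx).smul ?_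
    rcases r_gt_or h1 j with hj | ⟨h2, h3⟩
    · have : Om j =ᶠ[𝓝 x] om j := by
        filter_upwards [hn, (cd_r j hx).continuousAt.eventually_const_lt hj, ne_zero_nhds hx]
          with w hw hw2 hw3
        exact Om_eq_om hw3 hw hw2
      exact (cd_om j hx hy ((r_pos_iff hx j).1 (by linarith))).congr_of_eventuallyEq this
    · have : Om j =ᶠ[𝓝 x] fun x => - om (j + 1) x - om (j + 2) x := by
        filter_upwards [(cd_r (j + 1) hx).continuousAt.eventually_const_lt h2,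
          (cd_r (j + 2) hx).continuousAt.eventually_const_lt h3] with w hw hw2
        exact Om_eq_neg hw hw2
      exact ((cd_om (j + 1) hx hy ((r_pos_iff hx _).1 (by linarith))).neg.sub
        (cd_om (j + 2) hx hy ((r_pos_iff hx _).1 (by linarith)))).congr_of_eventuallyEq this

end Pool.Agent.Lib_helper71.RP
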