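import Pool.Agent.Lib_helper71.RP.Forms

/-!
# The systole
-/

namespace Pool.Agent.Lib_helper71.RP

open MeasureTheory Set Filter Topology
open scoped ContDiff ENNReal

/-! ### General lemmas -/

lemma inc' {h G G' : ℝ → ℝ} (hh : ContinuousOn h (Icc 0 1))
    (hG : ∀ t ∈ Icc (0 : ℝ) 1, HasDerivAt G (G' t) t) (hle : ∀ t ∈ Ioo (0 : ℝ) 1, G' t ≤ h t)
    {a b : ℝ} (ha : 0 ≤ a) (hab : a ≤ b) (hb : b ≤ 1) : G b - G a ≤ ∫ t in a..b, h t := by
  have hsub : Icc a b ⊆ Icc (0 : ℝ) 1 := Icc_subset_Icc ha hb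
  apply intervalIntegral.sub_le_integral_of_hasDeriv_right_of_le hab (g' := G')
  · exact fun t ht => (hG t (hsub ht)).continuousAt.continuousWithinAt
  · exact fun t ht => (hG t (hsub (Ioo_subset_Icc_self ht))).hasDerivWithinAt
  · exact (hh.mono hsub).integrableOn_Icc
  · exact fun t ht => hle t (Ioo_subset_Ioo ha hb ht)

lemma inc {h G G' : ℝ → ℝ} (hh : ContinuousOn h (Icc 0 1))
    (hG : ∀ t ∈ Icc (0 : ℝ) 1, HasDerivAt G (G' t) t) (hle : ∀ t ∈ Icc (0 : ℝ) 1, G' t ≤ h t)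
    {a b : ℝ} (ha : 0 ≤ a) (hab : a ≤ b) (hb : b ≤ 1) : G b - G a ≤ ∫ t in a..b, h t :=
  inc' hh hG (fun t ht => hle t (Ioo_subset_Icc_self ht)) ha hab hb

lemma hint {h : ℝ → ℝ} (hh : ContinuousOn h (Icc 0 1)) {a b : ℝ} (ha : 0 ≤ a) (hab : a ≤ b)
    (hb : b ≤ 1) : IntervalIntegrable h volume a b := by
  apply ContinuousOn.intervalIntegrable
  rw [uIcc_of_le hab]
  exact hh.mono (Icc_subset_Icc ha hb)

/-- splitting at two points -/
lemma split3 {h : ℝ → ℝ} (hh : ContinuousOn h (Icc 0 1)) {a b : ℝ} (ha : 0 ≤ a) (hab : a ≤ b)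
    (hb : b ≤ 1) : ∫ t in (0 : ℝ)..1, h t =
      (∫ t in (0 : ℝ)..a, h t) + (∫ t in a..b, h t) + ∫ t in b..1, h t := by
  rw [intervalIntegral.integral_add_adjacent_intervals (hint hh le_rfl ha (hab.trans hb))
    (hint hh ha hab hb), intervalIntegral.integral_add_adjacent_intervals
    (hint hh le_rfl (ha.trans hab) hb) (hint hh (ha.trans hab) hb le_rfl)]

/-- A closed function which oscillates by `1/2`. -/
lemma closed_var {h G G' : ℝ → ℝ} (hh : ContinuousOn h (Icc 0 1))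
    (hG : ∀ t ∈ Icc (0 : ℝ) 1, HasDerivAt G (G' t) t) (hle : ∀ t ∈ Icc (0 : ℝ) 1, |G' t| ≤ h t)
    (hc : G 1 = G 0) {a b : ℝ} (ha : a ∈ Icc (0 : ℝ) 1) (hb : b ∈ Icc (0 : ℝ) 1) :
    2 * (G b - G a) ≤ ∫ t in (0 : ℝ)..1, h t := by
  have h1 : ∀ t ∈ Icc (0 : ℝ) 1, G' t ≤ h t := fun t ht => (le_abs_self _).trans (hle t ht)
  have h2 : ∀ t ∈ Icc (0 : ℝ) 1, (fun t => - G' t) t ≤ h t :=
    fun t ht => (neg_le_abs _).trans (hle t ht)
  have hG2 : ∀ t ∈ Icc (0 : ℝ) 1, HasDerivAt (fun t => - G t) ((fun t => - G' t) t) t :=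
    fun t ht => (hG t ht).neg
  rcases le_total a b with hab | hab
  · rw [split3 hh ha.1 hab hb.2]
    have e1 := inc hh hG2 h2 le_rfl ha.1 ha.2
    have e2 := inc hh hG h1 ha.1 hab hb.2
    have e3 := inc hh hG2 h2 hb.1 hb.2 le_rfl
    linarith
  · rw [split3 hh hb.1 hab ha.2]
    have e1 := inc hh hG h1 le_rfl hb.1 hb.2
    have e2 := inc hh hG2 h2 hb.1 hab ha.2
    have e3 := inc hh hG h1 ha.1 ha.2 le_rfl
    linarith

/-- If `|b| = |τ|` near a point then the derivatives have the same absolute value. -/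
lemma abs_deriv_eq {b τ : ℝ → ℝ} {b' τ' t : ℝ} (hb : HasDerivAt b b' t) (hτ : HasDerivAt τ τ' t)
    (h : ∀ᶠ s in 𝓝 t, |b s| = |τ s|) : |b'| = |τ'| := by
  by_cases h0 : τ t = 0
  · have h1 : b t = 0 := by
      have := h.self_of_nhds
      rwa [h0, abs_zero, abs_eq_zero] at this
    have e1 := hb.tendsto_slope.abs
    have e2 := hτ.tendsto_slope.abs
    refine tendsto_nhds_unique e1 (e2.congr' ?_)
    filter_upwards [mem_nhdsWithin_of_mem_nhds h] with s hs
    simp only [slope, vsub_eq_sub, smul_eq_mul, abs_mul, h0, h1, sub_zero]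
    rw [hs]
  · have h1 : |b t| = |τ t| := h.self_of_nhds
    have e1 : HasDerivAt (fun s => b s ^ 2) (2 * b t * b') t := by
      have := hb.pow 2
      refine this.congr_deriv ?_
      ring
    have e2 : HasDerivAt (fun s => τ s ^ 2) (2 * τ t * τ') t := by
      have := hτ.pow 2
      refine this.congr_deriv ?_
      ring
    have e3 : (fun s => b s ^ 2) =ᶠ[𝓝 t] fun s => τ s ^ 2 := by
      filter_upwards [h] with s hs
      rw [← sq_abs, hs, sq_abs]
    have e4 := e1.unique (e2.congr_of_eventuallyEq e3)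
    have e5 : |2 * b t * b'| = |2 * τ t * τ'| := by rw [e4]
    rw [abs_mul, abs_mul, abs_mul, abs_mul, h1] at e5
    have : |(2 : ℝ)| * |τ t| ≠ 0 := by positivity
    exact mul_left_cancel₀ this e5

/-- The unit complex number of a curve. -/
lemma hasDerivAt_unit {p : ℝ → ℂ} {p' : ℂ} {t : ℝ} (hp : HasDerivAt p p' t) (h : p t ≠ 0) :
    HasDerivAt (fun t => p t / (‖p t‖ : ℂ)) ((((p t)⁻¹ * p').im : ℂ) * Complex.I * (p t / (‖p t‖ : ℂ))) t := by
  have hn : ‖p t‖ ≠ 0 := norm_ne_zero_iff.2 h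
  have hnc : (‖p t‖ : ℂ) ≠ 0 := Complex.ofReal_ne_zero.2 hn
  have h1 : HasDerivAt (fun t => ‖p t‖) ((p t * (starRingEnd ℂ) p').re / ‖p t‖) t := by
    have h2 : HasDerivAt (fun t => Complex.normSq (p t)) (2 * (p t * (starRingEnd ℂ) p').re) t := by
      have hr : HasDerivAt (fun t => (p t).re) p'.re t :=
        Complex.reCLM.hasFDerivAt.comp_hasDerivAt t hp
      have hi : HasDerivAt (fun t => (p t).im) p'.im t :=
        Complex.imCLM.hasFDerivAt.comp_hasDerivAt t hp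
      have := (hr.mul hr).add (hi.mul hi)
      refine (this.congr_deriv ?_).congr_of_eventuallyEq ?_
      · simp [Complex.mul_re]; ring
      · exact Eventually.of_forall fun t => by simp [Complex.normSq_apply]
    have h3 := h2.sqrt (by rw [Ne, Complex.normSq_eq_zero]; exact h)
    have h4 : (fun t => ‖p t‖) = fun t => Real.sqrt (Complex.normSq (p t)) := by
      funext t; rfl
    rw [h4]
    refine h3.congr_deriv ?_
    rw [show Real.sqrt (Complex.normSq (p t)) = ‖p t‖ from rfl]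
    field_simp
  have h5 : HasDerivAt (fun t => (‖p t‖ : ℂ)) (((p t * (starRingEnd ℂ) p').re / ‖p t‖ : ℝ) : ℂ) t :=
    h1.ofReal_comp
  have h6 := hp.div h5 hnc
  refine h6.congr_deriv ?_
  obtain ⟨q, hq⟩ : ∃ q, p' = p t * q := ⟨(p t)⁻¹ * p', by field_simp⟩
  have e1 : (p t * (starRingEnd ℂ) p').re = ‖p t‖ ^ 2 * q.re := by
    rw [hq, map_mul, ← mul_assoc, Complex.mul_conj, Complex.normSq_eq_norm_sq,
      Complex.re_ofReal_mul, Complex.conj_re]
  have e2 : (p t)⁻¹ * p' = q := by rw [hq]; field_simp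
  rw [e1, e2]
  have e3 : q = (q.re : ℂ) + q.im * Complex.I := (Complex.re_add_im q).symm
  rw [hq]
  push_cast
  field_simp
  linear_combination e3

/-- Composition of a function with a curve. -/
lemma path_deriv {c : ℝ → E6} (hc : ContDiff ℝ 1 c) {g : E6 → ℝ} {t : ℝ}
    (hg : DifferentiableAt ℝ g (c t)) :
    HasDerivAt (fun t => g (c t)) (fderiv ℝ g (c t) (deriv c t)) t :=
  hg.hasFDerivAt.comp_hasDerivAt t
    ((hc.differentiable (by simp)).differentiableAt.hasDerivAt)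

lemma da {g : E6 → ℝ} {x : E6} (h : ContDiffAt ℝ ∞ g x) : DifferentiableAt ℝ g x :=
  h.differentiableAt (by simp)

lemma path_zc {c : ℝ → E6} (hc : ContDiff ℝ 1 c) (j : Fin 3) (t : ℝ) :
    HasDerivAt (fun t => zc j (c t)) (zc j (deriv c t)) t :=
  (zc j).hasFDerivAt.comp_hasDerivAt t ((hc.differentiable (by simp)).differentiableAt.hasDerivAt)

lemma path_uu {c : ℝ → E6} (hc : ContDiff ℝ 1 c) (j : Fin 3) {t : ℝ} (hx : c t ≠ 0)
    (hy : |yy (c t)| < 2) (hz : zc j (c t) ≠ 0) :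
    HasDerivAt (fun t => uu j (c t))
      (((Real.pi * om j (c t) (deriv c t) : ℝ) : ℂ) * Complex.I * uu j (c t)) t := by
  have h1 := hasDerivAt_unit (path_zc hc j t) hz
  have h2 : HasDerivAt (fun t => (((-(Real.pi * sw j * xd (c t)) : ℝ) : ℂ)) * Complex.I)
      (((-(Real.pi * sw j * fderiv ℝ xd (c t) (deriv c t)) : ℝ) : ℂ) * Complex.I) t := by
    have := ((path_deriv hc (da (cd_xd hx hy))).const_mul (Real.pi * sw j)).neg.ofReal_comp
    exact this.mul_const Complex.I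
  have h3 := h1.mul h2.cexp
  refine h3.congr_deriv ?_
  have hpi : (Real.pi : ℂ) ≠ 0 := Complex.ofReal_ne_zero.2 Real.pi_ne_zero
  simp only [uu, om, theta, sub_apply, smul_apply, ContinuousLinearMap.comp_apply,
    Complex.imCLM_apply, smul_eq_mul]
  push_cast
  field_simp
  ring

lemma norm_uu (j : Fin 3) {x : E6} (hz : zc j x ≠ 0) : ‖uu j x‖ = 1 := by
  rw [uu, norm_mul, Complex.norm_exp_ofReal_mul_I, mul_one, norm_div, Complex.norm_real,
    norm_norm]
  exact div_self (norm_ne_zero_iff.2 hz)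

lemma exp_arctan {p : ℂ} (hp : p.re ≠ 0) :
    Complex.exp ((2 * Real.arctan (p.im / p.re) : ℝ) * Complex.I) = p ^ 2 / (‖p‖ : ℂ) ^ 2 := by
  have h1 : (‖p‖ : ℂ) ^ 2 = ((p.re ^ 2 + p.im ^ 2 : ℝ) : ℂ) := by
    rw [← Complex.ofReal_pow, ← Complex.normSq_eq_norm_sq, Complex.normSq_apply]
    push_cast
    ring
  have h2 : ((2 * Real.arctan (p.im / p.re) : ℝ) : ℂ) * Complex.I =
      ((2 : ℕ) : ℂ) * (((Real.arctan (p.im / p.re) : ℝ) : ℂ) * Complex.I) := by
    push_cast; ring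
  rw [h2, Complex.exp_nat_mul, Complex.exp_mul_I, ← Complex.ofReal_cos, ← Complex.ofReal_sin,
    Real.cos_arctan, Real.sin_arctan, h1]
  set τ := p.im / p.re with hτ
  have h3 : 0 < 1 + τ ^ 2 := by positivity
  have h4 : Real.sqrt (1 + τ ^ 2) ^ 2 = 1 + τ ^ 2 := Real.sq_sqrt h3.le
  have h5 : Real.sqrt (1 + τ ^ 2) ≠ 0 := (Real.sqrt_pos.2 h3).ne'
  have h6 : p.im = τ * p.re := by rw [hτ]; field_simp
  have h7 : p = (p.re : ℂ) * (1 + τ * Complex.I) := by
    apply Complex.ext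
    · simp
    · simp [h6]; ring
  have h8 : (p.re ^ 2 + p.im ^ 2 : ℝ) = p.re ^ 2 * Real.sqrt (1 + τ ^ 2) ^ 2 := by
    rw [h4, h6]; ring
  have h9 : (p.re : ℂ) ≠ 0 := Complex.ofReal_ne_zero.2 hp
  have h10 : ((Real.sqrt (1 + τ ^ 2) : ℝ) : ℂ) ≠ 0 := Complex.ofReal_ne_zero.2 h5
  have h11 : p ^ 2 = (p.re : ℂ) ^ 2 * (1 + τ * Complex.I) ^ 2 := by rw [← mul_pow, ← h7]
  rw [h8, h11]
  push_cast
  field_simp

lemma prod_uu {x : E6} (hx : x ≠ 0) (hy : |yy x| < 2) (hr : ∀ k, 1 / 6 < r k x) :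
    uu 0 x ^ 2 * uu 1 x ^ 2 * uu 2 x ^ 2 = 1 := by
  have hre : (pr x).re ≠ 0 := re_pr_ne hx (fun k => by linarith [hr k]) hy
  have h1 : xd x = dd x := by rw [xd, xx_one (fun k => (hr k).le), one_mul]
  have h2 := exp_arctan hre
  have h3 : uu 0 x * uu 1 x * uu 2 x =
      pr x / (‖pr x‖ : ℂ) * Complex.exp (((-(Real.pi * dd x) : ℝ) : ℂ) * Complex.I) := by
    simp only [uu, pr, h1, norm_mul, sw]
    push_cast
    simp
    ring
  have h4 : uu 0 x ^ 2 * uu 1 x ^ 2 * uu 2 x ^ 2 = (uu 0 x * uu 1 x * uu 2 x) ^ 2 := by ring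
  rw [h4, h3, mul_pow, ← Complex.exp_nat_mul]
  have hn : (‖pr x‖ : ℂ) ≠ 0 := Complex.ofReal_ne_zero.2 (norm_ne_zero_iff.2 fun h => hre (by rw [h]; rfl))
  have hp : pr x ≠ 0 := fun h => hre (by rw [h]; rfl)
  have h5 : ((2 : ℕ) : ℂ) * (((-(Real.pi * dd x) : ℝ) : ℂ) * Complex.I) =
      - (((2 * Real.arctan ((pr x).im / (pr x).re) : ℝ) : ℂ) * Complex.I) := by
    have : Real.pi * dd x = Real.arctan ((pr x).im / (pr x).re) := by
      rw [dd]; field_simp
    rw [this]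
    push_cast
    ring
  rw [h5, Complex.exp_neg, h2]
  field_simp

/-! ### The three cases -/

section cases

variable {c : ℝ → E6} {h : ℝ → ℝ}

lemma odd_end (hc : IsOddLoop 5 c) : ∃ a : ℝ, 0 < a ∧ c 1 = -(a • c 0) := by
  obtain ⟨a, ha, h⟩ := hc.odd
  exact ⟨-a, by linarith, by rw [h]; simp⟩

lemma rr_end (hc : IsOddLoop 5 c) : rr (c 1) = rr (c 0) := by
  obtain ⟨a, ha, h⟩ := odd_end hc
  rw [h, rr_neg, rr_smul ha.ne']

lemma psi_end (hc : IsOddLoop 5 c) : psi (c 1) = - psi (c 0) := by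
  obtain ⟨a, ha, h⟩ := odd_end hc
  rw [h, psi_neg, psi_smul ha]

lemma pp_end (hc : IsOddLoop 5 c) (j : Fin 3) : pp j (c 1) = - pp j (c 0) := by
  obtain ⟨a, ha, h⟩ := odd_end hc
  rw [h, pp_neg, pp_smul j ha]

lemma uu_end (hc : IsOddLoop 5 c) (j : Fin 3) : uu j (c 1) = - uu j (c 0) := by
  obtain ⟨a, ha, h⟩ := odd_end hc
  rw [h, uu_neg, uu_smul j ha]

lemma r_end (hc : IsOddLoop 5 c) (j : Fin 3) : r j (c 1) = r j (c 0) := by
  obtain ⟨a, ha, h⟩ := odd_end hc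
  rw [h, r_neg, r_smul j ha.ne']

variable (hc : IsOddLoop 5 c) (hh : ContinuousOn h (Icc 0 1))
  (hf : ∀ t ∈ Icc (0 : ℝ) 1, ∀ i, forms i (c t) (deriv c t) ≤ h t)

include hc hh hf

/-- Case 1: the depth crosses from `1/4` to `3/4`. -/
lemma case1 {a b : ℝ} (ha : a ∈ Icc (0 : ℝ) 1) (hb : b ∈ Icc (0 : ℝ) 1)
    (hra : rr (c a) ≤ 1 / 4) (hrb : 3 / 4 ≤ rr (c b)) : 1 ≤ ∫ t in (0 : ℝ)..1, h t := by
  have h1 : ∀ t ∈ Icc (0 : ℝ) 1,
      HasDerivAt (fun t => rr (c t)) (fderiv ℝ rr (c t) (deriv c t)) t :=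
    fun t ht => path_deriv hc.smooth (da (cd_rr (hc.ne_zero t ht)))
  have h2 : ∀ t ∈ Icc (0 : ℝ) 1, |fderiv ℝ rr (c t) (deriv c t)| ≤ h t := by
    intro t ht
    rw [abs_le']
    constructor
    · have := hf t ht (.inr (.inl true))
      change fC true _ _ ≤ _ at this
      rw [fC_apply] at this
      simpa [sg] using this
    · have := hf t ht (.inr (.inl false))
      change fC false _ _ ≤ _ at this
      rw [fC_apply] at this
      simpa [sg] using this
  have := closed_var hh h1 h2 (rr_end hc) ha hb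
  linarith

omit hf in
lemma case2_aux {g : E6 → ℝ} (hg : ∀ x, x ≠ 0 → ContDiffAt ℝ ∞ g x) (hend : g (c 1) = - g (c 0))
    (hle : ∀ t ∈ Icc (0 : ℝ) 1, |4 * fderiv ℝ g (c t) (deriv c t)| ≤ h t)
    (hv : 1 / 8 ≤ |g (c 0)|) : 1 ≤ ∫ t in (0 : ℝ)..1, h t := by
  have h1 : ∀ t ∈ Icc (0 : ℝ) 1,
      HasDerivAt (fun t => 4 * g (c t)) (4 * fderiv ℝ g (c t) (deriv c t)) t :=
    fun t ht => (path_deriv hc.smooth (da (hg _ (hc.ne_zero t ht)))).const_mul 4
  have e1 := inc hh h1 (fun t ht => (le_abs_self _).trans (hle t ht)) le_rfl zero_le_one le_rfl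
  have e2 := inc hh (G := fun t => - (4 * g (c t))) (fun t ht => (h1 t ht).neg)
    (fun t ht => (neg_le_abs _).trans (hle t ht)) le_rfl zero_le_one le_rfl
  rw [hend] at e1 e2
  rcases le_abs.1 hv with h3 | h3 <;> linarith

omit hc hh hf in
/-- Some component is large. -/
lemma exists_comp {x : E6} (hx : x ≠ 0) :
    1 / 8 ≤ |psi x| ∨ (∃ j, 1 / 8 ≤ |(pp j x).re|) ∨ ∃ j, 1 / 8 ≤ |(pp j x).im| := by
  by_contra hcon
  push Not at hcon
  obtain ⟨h1, h2, h3⟩ := hcon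
  have h4 : psi x ^ 2 < 1 / 64 := by
    rw [← sq_abs]; nlinarith [abs_nonneg (psi x)]
  have h5 := tt_sum hx
  rw [mu, Fin.sum_univ_three] at h5
  have h6 : ∀ j, tt j x < 1 / 4 := by
    intro j
    by_contra h7
    push Not at h7
    have hz : zc j x ≠ 0 := by
      rw [← r_pos_iff hx]
      by_contra h8
      have := tt_zero (j := j) (x := x) (by linarith)
      linarith
    have h8 : ‖pp j x‖ = tt j x := by
      rw [pp, norm_mul, norm_uu j hz, mul_one, Complex.norm_real, Real.norm_eq_abs,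
        abs_of_nonneg (tt_nonneg j)]
    have h9 : ‖pp j x‖ ^ 2 = (pp j x).re ^ 2 + (pp j x).im ^ 2 := by
      rw [← Complex.normSq_eq_norm_sq, Complex.normSq_apply]; ring
    have h10 : (pp j x).re ^ 2 < 1 / 64 := by
      rw [← sq_abs]; nlinarith [abs_nonneg (pp j x).re, h2 j]
    have h11 : (pp j x).im ^ 2 < 1 / 64 := by
      rw [← sq_abs]; nlinarith [abs_nonneg (pp j x).im, h3 j]
    rw [h8] at h9
    nlinarith
  linarith [h6 0, h6 1, h6 2]

/-- Case 2: the depth stays above `1/4`. -/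
lemma case2 (hr : ∀ t ∈ Icc (0 : ℝ) 1, 1 / 4 ≤ rr (c t)) : 1 ≤ ∫ t in (0 : ℝ)..1, h t := by
  have h0 : (0 : ℝ) ∈ Icc (0 : ℝ) 1 := ⟨le_rfl, zero_le_one⟩
  rcases exists_comp (hc.ne_zero 0 h0) with h1 | ⟨j, h1⟩ | ⟨j, h1⟩
  · apply case2_aux hc hh (fun x hx => cd_psi hx) (psi_end hc) _ h1
    intro t ht
    rw [abs_le']
    constructor
    · have := hf t ht (.inr (.inr (.inr (.inr true))))
      change fG true _ _ ≤ _ at this
      rw [fG_apply, c2_one (hr t ht)] at this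
      simpa [sg] using this
    · have := hf t ht (.inr (.inr (.inr (.inr false))))
      change fG false _ _ ≤ _ at this
      rw [fG_apply, c2_one (hr t ht)] at this
      simpa [sg] using this
  · apply case2_aux hc hh (g := fun x => (pp j x).re) (fun x hx => cd_ppre j hx)
      (by rw [pp_end hc]; simp) _ h1
    intro t ht
    rw [abs_le']
    constructor
    · have := hf t ht (.inr (.inr (.inl (true, j))))
      change fD (true, j) _ _ ≤ _ at this
      rw [fD_apply, c2_one (hr t ht)] at this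
      simpa [sg] using this
    · have := hf t ht (.inr (.inr (.inl (false, j))))
      change fD (false, j) _ _ ≤ _ at this
      rw [fD_apply, c2_one (hr t ht)] at this
      simpa [sg] using this
  · apply case2_aux hc hh (g := fun x => (pp j x).im) (fun x hx => cd_ppim j hx)
      (by rw [pp_end hc]; simp) _ h1
    intro t ht
    rw [abs_le']
    constructor
    · have := hf t ht (.inr (.inr (.inr (.inl (true, j)))))
      change fE (true, j) _ _ ≤ _ at this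
      rw [fE_apply, c2_one (hr t ht)] at this
      simpa [sg] using this
    · have := hf t ht (.inr (.inr (.inr (.inl (false, j)))))
      change fE (false, j) _ _ ≤ _ at this
      rw [fE_apply, c2_one (hr t ht)] at this
      simpa [sg] using this

end cases

/-! ### Case 3 -/

section case3

/-- the winding speed -/
noncomputable def vv (c : ℝ → E6) (j : Fin 3) (t : ℝ) : ℝ := fA j (c t) (deriv c t)
/-- the winding -/
noncomputable def VV (c : ℝ → E6) (j : Fin 3) (t : ℝ) : ℝ := ∫ s in (0 : ℝ)..t, vv c j s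
/-- the phase -/
noncomputable def ph (c : ℝ → E6) (j : Fin 3) (t : ℝ) : ℂ :=
  Complex.exp (((-(Real.pi * VV c j t) : ℝ) : ℂ) * Complex.I)
/-- the corrected unit vector -/
noncomputable def aa (c : ℝ → E6) (j : Fin 3) (t : ℝ) : ℂ := uu j (c t) * ph c j t

variable {c : ℝ → E6} {h : ℝ → ℝ}

lemma VV_zero (j : Fin 3) : VV c j 0 = 0 := by simp [VV]

lemma ph_zero (j : Fin 3) : ph c j 0 = 1 := by simp [ph, VV_zero]

lemma norm_ph (j : Fin 3) (t : ℝ) : ‖ph c j t‖ = 1 := by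
  rw [ph, Complex.norm_exp_ofReal_mul_I]

lemma vv_continuousOn (hc : IsOddLoop 5 c) (j : Fin 3) : ContinuousOn (vv c j) {t | c t ≠ 0} := by
  intro t ht
  apply ContinuousAt.continuousWithinAt
  have h1 : ContinuousAt (fun t => fA j (c t)) t :=
    ContinuousAt.comp (cd_c1Om j ht).continuousAt hc.smooth.continuous.continuousAt
  exact h1.clm_apply (hc.smooth.continuous_deriv (by simp)).continuousAt

lemma vv_int (hc : IsOddLoop 5 c) (j : Fin 3) {t : ℝ} (ht : t ∈ Icc (0 : ℝ) 1) :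
    IntervalIntegrable (vv c j) volume 0 t := by
  apply ContinuousOn.intervalIntegrable
  apply (vv_continuousOn hc j).mono
  rw [uIcc_of_le ht.1]
  exact fun s hs => hc.ne_zero s ⟨hs.1, hs.2.trans ht.2⟩

lemma VV_deriv (hc : IsOddLoop 5 c) (j : Fin 3) {t : ℝ} (ht : t ∈ Icc (0 : ℝ) 1) :
    HasDerivAt (VV c j) (vv c j t) t := by
  have ho : IsOpen {t | c t ≠ 0} := isOpen_ne.preimage hc.smooth.continuous
  exact intervalIntegral.integral_hasDerivAt_right (vv_int hc j ht)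
    ((vv_continuousOn hc j).stronglyMeasurableAtFilter ho t (hc.ne_zero t ht))
    ((vv_continuousOn hc j).continuousAt (ho.mem_nhds (hc.ne_zero t ht)))

variable (hc : IsOddLoop 5 c) (hr : ∀ t ∈ Icc (0 : ℝ) 1, rr (c t) < 3 / 4)
include hc hr

lemma vv_sum {t : ℝ} (ht : t ∈ Icc (0 : ℝ) 1) : vv c 0 t + vv c 1 t + vv c 2 t = 0 := by
  have h1 := hr t ht
  have h2 := sum_Om (hc.ne_zero t ht) (show rr (c t) < 1 by linarith)
  rw [Fin.sum_univ_three] at h2
  have h3 := congrArg (fun L : E6 →L[ℝ] ℝ => L (deriv c t)) h2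
  simp only [add_apply, zero_apply] at h3
  simp only [vv, fA_apply, c1_one h1.le, one_mul]
  exact h3

lemma VV_sum {t : ℝ} (ht : t ∈ Icc (0 : ℝ) 1) : VV c 0 t + VV c 1 t + VV c 2 t = 0 := by
  rw [VV, VV, VV, ← intervalIntegral.integral_add (vv_int hc 0 ht) (vv_int hc 1 ht),
    ← intervalIntegral.integral_add ((vv_int hc 0 ht).add (vv_int hc 1 ht)) (vv_int hc 2 ht)]
  refine (intervalIntegral.integral_congr (g := fun _ => 0) ?_).trans (by simp)
  intro s hs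
  rw [uIcc_of_le ht.1] at hs
  exact vv_sum hc hr ⟨hs.1, hs.2.trans ht.2⟩

lemma aa_deriv (j : Fin 3) {t : ℝ} (ht : t ∈ Icc (0 : ℝ) 1) (hj : 1 / 6 < r j (c t)) :
    HasDerivAt (aa c j) 0 t := by
  have h1 := hr t ht
  have hx := hc.ne_zero t ht
  have hy : |yy (c t)| < 2 := yy_lt_of_rr (by linarith)
  have hz : zc j (c t) ≠ 0 := (r_pos_iff hx j).1 (by linarith)
  have h2 := path_uu hc.smooth j hx hy hz
  have h3 : HasDerivAt (ph c j)
      (Complex.exp (((-(Real.pi * VV c j t) : ℝ) : ℂ) * Complex.I) *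
        (((-(Real.pi * vv c j t) : ℝ) : ℂ) * Complex.I)) t :=
    ((((VV_deriv hc j ht).const_mul Real.pi).neg.ofReal_comp).mul_const Complex.I).cexp
  refine (h2.mul h3).congr_deriv ?_
  have h4 : vv c j t = om j (c t) (deriv c t) := by
    rw [vv, fA_apply, c1_one h1.le, one_mul, Om_eq_om hx (by linarith) hj]
  rw [h4, ph]
  push_cast
  ring

omit hr in
lemma norm_aa (j : Fin 3) {t : ℝ} (ht : t ∈ Icc (0 : ℝ) 1) (hj : 1 / 6 < r j (c t)) :
    ‖aa c j t‖ = 1 := by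
  rw [aa, norm_mul, norm_ph, norm_uu j ((r_pos_iff (hc.ne_zero t ht) j).1 (by linarith)), one_mul]

omit hr in
lemma aa_ne (j : Fin 3) {t : ℝ} (ht : t ∈ Icc (0 : ℝ) 1) (hj : 1 / 6 < r j (c t)) :
    aa c j t ≠ 0 := by
  rw [← norm_ne_zero_iff, norm_aa hc j ht hj]; norm_num

lemma prod_ph {t : ℝ} (ht : t ∈ Icc (0 : ℝ) 1) : ph c 0 t * ph c 1 t * ph c 2 t = 1 := by
  rw [ph, ph, ph, ← Complex.exp_add, ← Complex.exp_add, Complex.exp_eq_one_iff]
  refine ⟨0, ?_⟩
  have := VV_sum hc hr ht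
  have h2 : ((VV c 0 t + VV c 1 t + VV c 2 t : ℝ) : ℂ) = 0 := by rw [this]; simp
  push_cast at h2 ⊢
  linear_combination (-(Real.pi : ℂ) * Complex.I) * h2

lemma prod_aa {t : ℝ} (ht : t ∈ Icc (0 : ℝ) 1) (hj : ∀ j, 1 / 6 < r j (c t)) :
    aa c 0 t ^ 2 * aa c 1 t ^ 2 * aa c 2 t ^ 2 = 1 := by
  have h1 := hr t ht
  have h2 := prod_uu (hc.ne_zero t ht) (yy_lt_of_rr (by linarith)) hj
  have h3 := prod_ph hc hr ht
  have : aa c 0 t ^ 2 * aa c 1 t ^ 2 * aa c 2 t ^ 2 =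
      (uu 0 (c t) ^ 2 * uu 1 (c t) ^ 2 * uu 2 (c t) ^ 2) * (ph c 0 t * ph c 1 t * ph c 2 t) ^ 2 := by
    simp only [aa]; ring
  rw [this, h2, h3]; norm_num

omit hc hr in
lemma prod3 (f : Fin 3 → ℂ) (j : Fin 3) : f 0 * f 1 * f 2 = f j * f (j + 1) * f (j + 2) := by
  fin_cases j <;> simp <;> ring

open Classical in
/-- the locally constant function -/
noncomputable def GG (c : ℝ → E6) (j : Fin 3) (t : ℝ) : ℂ :=
  if 1 / 6 < r j (c t) then aa c j t ^ 2 else (aa c (j + 1) t ^ 2 * aa c (j + 2) t ^ 2)⁻¹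

lemma GG_deriv (j : Fin 3) {t : ℝ} (ht : t ∈ Icc (0 : ℝ) 1) :
    HasDerivWithinAt (GG c j) 0 (Icc 0 1) t := by
  have hx := hc.ne_zero t ht
  have h1 := hr t ht
  have hcont : ∀ k, ContinuousAt (fun t => r k (c t)) t := fun k =>
    ContinuousAt.comp (cd_r k hx).continuousAt hc.smooth.continuous.continuousAt
  rcases r_gt_or (show rr (c t) < 1 by linarith) j with hj | ⟨h2, h3⟩
  · have h4 : HasDerivAt (fun t => aa c j t ^ 2) 0 t := by
      refine ((aa_deriv hc hr j ht hj).pow 2).congr_deriv (by simp)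
    refine (h4.congr_of_eventuallyEq ?_).hasDerivWithinAt
    filter_upwards [(hcont j).eventually_const_lt hj] with s hs
    rw [GG, if_pos hs]
  · have h4 : HasDerivAt (fun t => (aa c (j + 1) t ^ 2 * aa c (j + 2) t ^ 2)⁻¹) 0 t := by
      have h5 := ((aa_deriv hc hr _ ht h2).pow 2).mul ((aa_deriv hc hr _ ht h3).pow 2)
      have h6 := h5.inv (mul_ne_zero (pow_ne_zero 2 (aa_ne hc _ ht h2))
        (pow_ne_zero 2 (aa_ne hc _ ht h3)))
      exact h6.congr_deriv (by simp)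
    have key : ∀ s ∈ Icc (0 : ℝ) 1, 1 / 6 < r (j + 1) (c s) → 1 / 6 < r (j + 2) (c s) →
        GG c j s = (aa c (j + 1) s ^ 2 * aa c (j + 2) s ^ 2)⁻¹ := by
      intro s hs hs1 hs2
      rw [GG]
      split_ifs with hs3
      · have h7 := prod_aa hc hr hs (fun k => by
          rcases fin3_mem k j with rfl | rfl | rfl
          exacts [hs3, hs1, hs2])
        rw [prod3 (fun k => aa c k s ^ 2) j, mul_assoc] at h7
        exact eq_inv_of_mul_eq_one_left h7
      · rfl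
    refine h4.hasDerivWithinAt.congr_of_eventuallyEq ?_ (key t ht h2 h3)
    filter_upwards [mem_nhdsWithin_of_mem_nhds ((hcont _).eventually_const_lt h2),
      mem_nhdsWithin_of_mem_nhds ((hcont _).eventually_const_lt h3), self_mem_nhdsWithin]
      with s hs1 hs2 hs
    exact key s hs hs1 hs2

lemma GG_const (j : Fin 3) {t : ℝ} (ht : t ∈ Icc (0 : ℝ) 1) : GG c j t = GG c j 0 := by
  apply constant_of_derivWithin_zero (a := 0) (b := 1)
  · exact fun s hs => (GG_deriv hc hr j hs).differentiableWithinAt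
  · intro s hs
    have hs' : s ∈ Icc (0 : ℝ) 1 := Ico_subset_Icc_self hs
    exact (GG_deriv hc hr j hs').derivWithin (uniqueDiffOn_Icc zero_lt_one s hs')
  · exact ht

lemma ph_one_sq (j : Fin 3) : ph c j 1 ^ 2 = 1 := by
  have h1 : (1 : ℝ) ∈ Icc (0 : ℝ) 1 := ⟨zero_le_one, le_rfl⟩
  have h0 : (0 : ℝ) ∈ Icc (0 : ℝ) 1 := ⟨le_rfl, zero_le_one⟩
  have hG := GG_const hc hr j h1
  rw [GG, GG, r_end hc] at hG
  split_ifs at hG with hj
  · rw [aa, aa, uu_end hc, ph_zero, mul_one, mul_pow, neg_sq] at hG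
    have hne : uu j (c 0) ^ 2 ≠ 0 := by
      apply pow_ne_zero
      rw [← norm_ne_zero_iff, norm_uu j ((r_pos_iff (hc.ne_zero 0 h0) j).1 (by linarith))]
      norm_num
    exact mul_left_cancel₀ hne (hG.trans (mul_one _).symm)
  · have h2 := hr 0 h0
    obtain ⟨hi, hk⟩ := (r_gt_or (show rr (c 0) < 1 by linarith) j).resolve_left hj
    rw [inv_inj] at hG
    simp only [aa, uu_end hc, ph_zero, mul_one, mul_pow, neg_sq] at hG
    have hne : ∀ k, 1 / 6 < r k (c 0) → uu k (c 0) ^ 2 ≠ 0 := by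
      intro k hk
      apply pow_ne_zero
      rw [← norm_ne_zero_iff, norm_uu k ((r_pos_iff (hc.ne_zero 0 h0) k).1 (by linarith))]
      norm_num
    have h3 : ph c (j + 1) 1 ^ 2 * ph c (j + 2) 1 ^ 2 = 1 := by
      have h4 : (uu (j + 1) (c 0) ^ 2 * uu (j + 2) (c 0) ^ 2) *
          (ph c (j + 1) 1 ^ 2 * ph c (j + 2) 1 ^ 2) =
          (uu (j + 1) (c 0) ^ 2 * uu (j + 2) (c 0) ^ 2) * 1 := by
        linear_combination hG
      exact mul_left_cancel₀ (mul_ne_zero (hne _ hi) (hne _ hk)) h4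
    have h5 := prod_ph hc hr h1
    rw [prod3 (fun k => ph c k 1) j] at h5
    have h6 : (ph c j 1 * ph c (j + 1) 1 * ph c (j + 2) 1) ^ 2 = 1 := by rw [h5]; norm_num
    have h7 : (ph c j 1 * ph c (j + 1) 1 * ph c (j + 2) 1) ^ 2 =
      ph c j 1 ^ 2 * (ph c (j + 1) 1 ^ 2 * ph c (j + 2) 1 ^ 2) := by ring
    rwa [h7, h3, mul_one] at h6

lemma VV_int (j : Fin 3) : ∃ n : ℤ, VV c j 1 = n := by
  have h1 := ph_one_sq hc hr j
  rw [ph, ← Complex.exp_nat_mul, Complex.exp_eq_one_iff] at h1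
  obtain ⟨n, hn⟩ := h1
  refine ⟨-n, ?_⟩
  have h2 := congrArg Complex.im hn
  simp at h2
  have h3 : Real.pi ≠ 0 := Real.pi_ne_zero
  have h4 : Real.pi * (VV c j 1 + n) = 0 := by linarith
  have h5 := (mul_eq_zero.1 h4).resolve_left h3
  push_cast
  linarith

lemma norm_GG_zero (j : Fin 3) : ‖GG c j 0‖ = 1 := by
  have h0 : (0 : ℝ) ∈ Icc (0 : ℝ) 1 := ⟨le_rfl, zero_le_one⟩
  have h2 := hr 0 h0
  rw [GG]
  split_ifs with hj
  · rw [norm_pow, norm_aa hc j h0 hj]; norm_num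
  · obtain ⟨hi, hk⟩ := (r_gt_or (show rr (c 0) < 1 by linarith) j).resolve_left hj
    rw [norm_inv, norm_mul, norm_pow, norm_pow, norm_aa hc _ h0 hi, norm_aa hc _ h0 hk]
    norm_num

/-- The signed version of the simplex coordinates. -/
lemma exists_signed (j : Fin 3) (hV : VV c j 1 = 0) : ∃ b b' : ℝ → ℝ,
    (∀ t ∈ Icc (0 : ℝ) 1, HasDerivAt b (b' t) t) ∧
    (∀ t ∈ Icc (0 : ℝ) 1, |b t| = tt j (c t)) ∧
    (∀ t ∈ Ioo (0 : ℝ) 1, |b' t| = |fderiv ℝ (tt j) (c t) (deriv c t)|) ∧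
    b 1 = - b 0 := by
  obtain ⟨U, hU⟩ := IsAlgClosed.exists_pow_nat_eq (GG c j 0) (n := 2) (by norm_num)
  have hUn : ‖U‖ = 1 := by
    have h1 : ‖U‖ ^ 2 = 1 := by rw [← norm_pow, hU, norm_GG_zero hc hr]
    nlinarith [norm_nonneg U]
  have hUU : U * (starRingEnd ℂ) U = 1 := by
    rw [Complex.mul_conj, Complex.normSq_eq_norm_sq, hUn]; norm_num
  have habs : ∀ t ∈ Icc (0 : ℝ) 1,
      |(pp j (c t) * (starRingEnd ℂ) U * ph c j t).re| = tt j (c t) := by
    intro t ht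
    have e1 : pp j (c t) * (starRingEnd ℂ) U * ph c j t =
        (tt j (c t) : ℂ) * (aa c j t * (starRingEnd ℂ) U) := by
      rw [pp, aa]; ring
    rw [e1, Complex.re_ofReal_mul, abs_mul, abs_of_nonneg (tt_nonneg j)]
    by_cases h0 : tt j (c t) = 0
    · rw [h0, zero_mul]
    · have hj : 1 / 6 < r j (c t) := by
        by_contra h2
        exact h0 (tt_zero (by linarith))
      have e2 : aa c j t ^ 2 = U ^ 2 := by
        rw [hU, ← GG_const hc hr j ht, GG, if_pos hj]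
      rcases sq_eq_sq_iff_eq_or_eq_neg.1 e2 with e3 | e3
      · rw [e3, hUU]; simp
      · rw [e3, neg_mul, hUU]; simp
  have hdiff : ∀ t ∈ Icc (0 : ℝ) 1, ∃ b' : ℝ,
      HasDerivAt (fun t => (pp j (c t) * (starRingEnd ℂ) U * ph c j t).re) b' t := by
    intro t ht
    have e1 : DifferentiableAt ℝ (fun t => pp j (c t)) t :=
      ((cd_pp j (hc.ne_zero t ht)).differentiableAt (by simp)).comp t
        (hc.smooth.differentiable (by simp)).differentiableAt
    have e2 : DifferentiableAt ℝ (ph c j) t :=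
      ((((VV_deriv hc j ht).const_mul Real.pi).neg.ofReal_comp).mul_const Complex.I).cexp.differentiableAt
    have e3 : DifferentiableAt ℝ (fun t => pp j (c t) * (starRingEnd ℂ) U * ph c j t) t :=
      (e1.mul_const _).mul e2
    exact ⟨_, Complex.reCLM.hasFDerivAt.comp_hasDerivAt t e3.hasDerivAt⟩
  refine ⟨fun t => (pp j (c t) * (starRingEnd ℂ) U * ph c j t).re,
    deriv fun t => (pp j (c t) * (starRingEnd ℂ) U * ph c j t).re, ?_, habs, ?_, ?_⟩
  · intro t ht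
    obtain ⟨b', hb'⟩ := hdiff t ht
    rwa [hb'.deriv]
  · intro t ht
    have ht' : t ∈ Icc (0 : ℝ) 1 := Ioo_subset_Icc_self ht
    obtain ⟨b', hb'⟩ := hdiff t ht'
    rw [hb'.deriv]
    refine abs_deriv_eq hb' (path_deriv hc.smooth (da (cd_tt j (hc.ne_zero t ht')))) ?_
    filter_upwards [Ioo_mem_nhds ht.1 ht.2] with s hs
    rw [habs s (Ioo_subset_Icc_self hs), abs_of_nonneg (tt_nonneg j)]
  · have e1 : ph c j 1 = 1 := by rw [ph, hV]; simp
    simp only
    rw [pp_end hc, e1, ph_zero]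
    simp

omit hr in
lemma exists_psi_zero : ∃ t ∈ Icc (0 : ℝ) 1, psi (c t) = 0 := by
  have hcont : ContinuousOn (fun t => psi (c t)) (Icc (0 : ℝ) 1) := by
    intro t ht
    exact (ContinuousAt.comp (f := c) (cd_psi (hc.ne_zero t ht)).continuousAt
      hc.smooth.continuous.continuousAt).continuousWithinAt
  have hend := psi_end hc
  rcases le_total (psi (c 0)) 0 with h0 | h0
  · have h1 : (0 : ℝ) ∈ Icc (psi (c 0)) (psi (c 1)) := ⟨h0, by rw [hend]; linarith⟩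
    obtain ⟨t, ht, h2⟩ := intermediate_value_Icc zero_le_one hcont h1
    exact ⟨t, ht, h2⟩
  · have h1 : (0 : ℝ) ∈ Icc (psi (c 1)) (psi (c 0)) := ⟨by rw [hend]; linarith, h0⟩
    obtain ⟨t, ht, h2⟩ := intermediate_value_Icc' zero_le_one hcont h1
    exact ⟨t, ht, h2⟩

variable (hh : ContinuousOn h (Icc 0 1))
  (hf : ∀ t ∈ Icc (0 : ℝ) 1, ∀ i, forms i (c t) (deriv c t) ≤ h t)
include hh hf

omit hc hr hh in
lemma half_sum_le {t : ℝ} (ht : t ∈ Icc (0 : ℝ) 1) :
    (1 / 2) * ∑ j, |fderiv ℝ (tt j) (c t) (deriv c t)| ≤ h t := by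
  have := hf t ht (.inl (.inr fun j => decide (0 ≤ fderiv ℝ (tt j) (c t) (deriv c t))))
  change fB _ _ _ ≤ _ at this
  rw [fB_apply] at this
  refine le_trans (le_of_eq ?_) this
  congr 1
  refine Finset.sum_congr rfl fun j _ => ?_
  by_cases h0 : 0 ≤ fderiv ℝ (tt j) (c t) (deriv c t)
  · simp [sg, h0, abs_of_nonneg h0]
  · simp only [sg, h0, decide_false]
    rw [abs_of_neg (not_le.1 h0)]
    simp

lemma case3_zero (hV : ∀ j, VV c j 1 = 0) : 1 ≤ ∫ t in (0 : ℝ)..1, h t := by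
  choose b b' hb habs hb' hend using fun j => exists_signed hc hr j (hV j)
  obtain ⟨t₀, ht₀, hpsi⟩ := exists_psi_zero hc
  -- signs
  let σ : Fin 3 → ℝ := fun j => sg (decide (0 ≤ b j t₀))
  have hσ : ∀ j, σ j * b j t₀ = tt j (c t₀) := by
    intro j
    rw [← habs j t₀ ht₀]
    by_cases h0 : 0 ≤ b j t₀
    · simp [σ, sg, h0, abs_of_nonneg h0]
    · simp only [σ, sg, h0, decide_false]
      rw [abs_of_neg (not_le.1 h0)]
      simp
  have hσ1 : ∀ j, |σ j| = 1 := fun j => sg_abs _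
  have hB : ∑ j, σ j * b j t₀ = 1 := by
    rw [Finset.sum_congr rfl fun j _ => hσ j, tt_sum (hc.ne_zero t₀ ht₀), mu, hpsi]
    norm_num
  have hBd : ∀ t ∈ Icc (0 : ℝ) 1, HasDerivAt (fun t => (1 / 2) * ∑ j, σ j * b j t)
      ((1 / 2) * ∑ j, σ j * b' j t) t := by
    intro t ht
    exact (HasDerivAt.fun_sum fun j _ => (hb j t ht).const_mul (σ j)).const_mul (1 / 2)
  have hle : ∀ t ∈ Ioo (0 : ℝ) 1, |(1 / 2) * ∑ j, σ j * b' j t| ≤ h t := by
    intro t ht
    refine le_trans ?_ (half_sum_le hf (Ioo_subset_Icc_self ht))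
    rw [abs_mul, abs_of_pos (by norm_num : (0 : ℝ) < 1 / 2)]
    refine mul_le_mul_of_nonneg_left ?_ (by norm_num)
    refine (Finset.abs_sum_le_sum_abs _ _).trans (le_of_eq ?_)
    refine Finset.sum_congr rfl fun j _ => ?_
    rw [abs_mul, hσ1, one_mul, hb' j t ht]
  have e1 := inc' hh hBd (fun t ht => (le_abs_self _).trans (hle t ht)) le_rfl ht₀.1 ht₀.2
  have e2 := inc' hh (G := fun t => - ((1 / 2) * ∑ j, σ j * b j t)) (fun t ht => (hBd t ht).neg)
    (fun t ht => (neg_le_abs _).trans (hle t ht)) ht₀.1 ht₀.2 le_rfl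
  have e3 : ∑ j, σ j * b j 1 = - ∑ j, σ j * b j 0 := by
    rw [← Finset.sum_neg_distrib]
    refine Finset.sum_congr rfl fun j _ => ?_
    rw [hend j]; ring
  have e4 := split3 hh ht₀.1 le_rfl ht₀.2
  rw [intervalIntegral.integral_same] at e4
  rw [hB] at e1
  simp only [hB, e3] at e2
  linarith

/-- Case 3: the depth stays below `3/4`. -/
lemma case3 : 1 ≤ ∫ t in (0 : ℝ)..1, h t := by
  have h1 : (1 : ℝ) ∈ Icc (0 : ℝ) 1 := ⟨zero_le_one, le_rfl⟩
  by_cases hall : ∀ j, VV c j 1 = 0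
  · exact case3_zero hc hr hh hf hall
  · have hsum := VV_sum hc hr h1
    have hex : ∃ j, 0 < VV c j 1 := by
      by_contra hcon
      push Not at hcon hall
      obtain ⟨j, hj⟩ := hall
      apply hj
      have h2 := hcon 0
      have h3 := hcon 1
      have h4 := hcon 2
      fin_cases j <;> simp only [Fin.zero_eta, Fin.mk_one, Fin.reduceFinMk] <;> linarith
    obtain ⟨j, hj⟩ := hex
    obtain ⟨n, hn⟩ := VV_int hc hr j
    have h2 : (1 : ℝ) ≤ VV c j 1 := by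
      rw [hn] at hj ⊢
      exact_mod_cast Int.add_one_le_iff.2 (by exact_mod_cast hj : (0 : ℤ) < n)
    have h3 := inc hh (fun t ht => VV_deriv hc j ht) (fun t ht => hf t ht (.inl (.inl j))) le_rfl
      zero_le_one le_rfl
    rw [VV_zero] at h3
    linarith

end case3

/-- The systole of the family is at least one. -/
theorem sysGeOne : SysGeOne 5 forms := by
  intro c hc h hh _ hf
  by_cases h1 : ∃ b ∈ Icc (0 : ℝ) 1, 3 / 4 ≤ rr (c b)
  · by_cases h2 : ∃ a ∈ Icc (0 : ℝ) 1, rr (c a) ≤ 1 / 4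
    · obtain ⟨b, hb, hrb⟩ := h1
      obtain ⟨a, ha, hra⟩ := h2
      exact case1 hc hh hf ha hb hra hrb
    · push Not at h2
      exact case2 hc hh hf fun t ht => (h2 t ht).le
  · push Not at h1
    exact case3 hc h1 hh hf

end Pool.Agent.Lib_helper71.RP
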