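import Pool.Agent.Lib_helper71.RP.Rank
import Pool.Agent.Lib_helper91.RP.Vol
import Pool.Agent.Lib_helper91.RP.PolarComp

/-!
# The volume of the limit metric
-/

namespace Pool.Agent.Lib_helper71.RP

open MeasureTheory Set Filter Topology
open scoped ContDiff ENNReal

/-- inclusion of the tangent space of the chart -/
noncomputable def inc0 : (Fin 5 → ℝ) →L[ℝ] E6 :=
  ContinuousLinearMap.pi (Fin.cons (0 : (Fin 5 → ℝ) →L[ℝ] ℝ)
    (fun i => ContinuousLinearMap.proj (R := ℝ) (φ := fun _ : Fin 5 => ℝ) i))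

lemma inc0_apply (w : Fin 5 → ℝ) : inc0 w = Fin.cons 0 w := by
  funext i
  refine Fin.cases ?_ (fun k => ?_) i
  · rfl
  · rfl

/-- the chart -/
def ch (y : Fin 5 → ℝ) : E6 := Fin.cons 1 y

lemma ch_zero (y : Fin 5 → ℝ) : ch y 0 = 1 := rfl

lemma ch_ne (y : Fin 5 → ℝ) : ch y ≠ 0 := by
  intro h
  have := congrFun h 0
  rw [ch_zero] at this
  simp at this

lemma ch_eq (y : Fin 5 → ℝ) : ch y = ch 0 + inc0 y := by
  rw [inc0_apply]
  funext i
  refine Fin.cases ?_ (fun k => ?_) i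
  · simp [ch]
  · simp [ch]

lemma ch_deriv (y : Fin 5 → ℝ) : HasFDerivAt ch inc0 y := by
  have : ch = fun y => ch 0 + inc0 y := funext ch_eq
  rw [this]
  exact inc0.hasFDerivAt.const_add _

lemma ch_cont : Continuous ch := continuous_iff_continuousAt.2 fun y => (ch_deriv y).continuousAt

lemma ch_inj {y y' : Fin 5 → ℝ} (h : ch y = ch y') : y = y' := by
  funext i
  exact congrFun h i.succ

/-- A set contained in the hyperplane orthogonal to a nonzero vector is a null set. -/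
lemma null_of_orth {s : Set (Fin 5 → ℝ)} {w : Fin 5 → ℝ} (hw : w ≠ 0)
    (h : ∀ xi ∈ s, ∑ j, xi j * w j = 0) : volume s = 0 := by
  let L : (Fin 5 → ℝ) →ₗ[ℝ] ℝ := ∑ j, w j • LinearMap.proj j
  have hL : ∀ xi, L xi = ∑ j, xi j * w j := by
    intro xi
    simp [L, mul_comm]
  have h1 : s ⊆ (LinearMap.ker L : Set (Fin 5 → ℝ)) := by
    intro xi hxi
    rw [SetLike.mem_coe, LinearMap.mem_ker, hL]
    exact h xi hxi
  refine measure_mono_null h1 (Measure.addHaar_submodule _ _ ?_)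
  intro htop
  have h2 : L w = 0 := by
    have : w ∈ LinearMap.ker L := by rw [htop]; trivial
    exact this
  rw [hL, Finset.sum_eq_zero_iff_of_nonneg (fun j _ => mul_self_nonneg _)] at h2
  apply hw
  funext j
  exact mul_self_eq_zero.1 (h2 j (Finset.mem_univ j))

lemma polar_null {y : Fin 5 → ℝ} (h : LowRank (ch y)) : volume (polarForms forms y) = 0 := by
  obtain ⟨g, hg⟩ := h
  let T : (Fin 5 → ℝ) →ₗ[ℝ] (Fin 4 → ℝ) := LinearMap.pi fun m => ((g m).comp inc0).toLinearMap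
  obtain ⟨w, hw0, hw⟩ : ∃ w, w ≠ 0 ∧ T w = 0 := by
    have hlt : Module.finrank ℝ (Fin 4 → ℝ) < Module.finrank ℝ (Fin 5 → ℝ) := by simp
    have := LinearMap.ker_ne_bot_of_finrank_lt (f := T) hlt
    obtain ⟨w, hw1, hw2⟩ := (Submodule.ne_bot_iff _).1 this
    exact ⟨w, hw2, hw1⟩
  have hz : ∀ i, forms i (ch y) (Fin.cons 0 w) = 0 := by
    rw [← inc0_apply]
    exact hg (inc0 w) fun m => congrFun hw m
  apply null_of_orth hw0
  intro xi hxi
  have h1 := hxi w 0 le_rfl fun i => (hz i).le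
  have h2 := hxi (-w) 0 le_rfl fun i => by
    have : (Fin.cons 0 (-w) : E6) = - Fin.cons 0 w := by
      rw [← inc0_apply, ← inc0_apply, map_neg]
    rw [this, map_neg]
    exact (neg_eq_zero.2 (hz i)).le
  simp only [Pi.neg_apply, mul_neg, Finset.sum_neg_distrib] at h2
  linarith

/-- the change of variables -/
noncomputable def Psi (y : Fin 5 → ℝ) : Fin 5 → ℝ :=
  ![(zc 1 (ch y)).arg / Real.pi, (zc 2 (ch y)).arg / Real.pi, tt 0 (ch y), tt 1 (ch y), tt 2 (ch y)]

/-- its derivative -/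
noncomputable def DPsi (y : Fin 5 → ℝ) : (Fin 5 → ℝ) →L[ℝ] (Fin 5 → ℝ) :=
  ContinuousLinearMap.pi ![(theta 1 (ch y)).comp inc0, (theta 2 (ch y)).comp inc0,
    (fderiv ℝ (tt 0) (ch y)).comp inc0, (fderiv ℝ (tt 1) (ch y)).comp inc0,
    (fderiv ℝ (tt 2) (ch y)).comp inc0]

lemma hasFDerivAt_arg (j : Fin 3) {x : E6} (hz : zc j x ∈ Complex.slitPlane) :
    HasFDerivAt (fun x => (zc j x).arg / Real.pi) (theta j x) x := by
  have h1 : HasFDerivAt (fun x => Complex.log (zc j x))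
      (((ContinuousLinearMap.toSpanSingleton ℂ (zc j x)⁻¹).restrictScalars ℝ).comp (zc j)) x :=
    ((Complex.hasStrictDerivAt_log hz).hasDerivAt.hasFDerivAt.restrictScalars ℝ).comp x
      (zc j).hasFDerivAt
  have h2 := (Complex.imCLM.hasFDerivAt.comp x h1).const_mul (1 / Real.pi)
  have h3 : (fun x => (zc j x).arg / Real.pi) =
      fun x => 1 / Real.pi * (Complex.imCLM ∘ fun x => Complex.log (zc j x)) x := by
    funext x
    simp [Complex.log_im]
    ring
  rw [h3]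
  refine h2.congr_fderiv ?_
  ext w
  simp [theta, mul_comm]

lemma hasFDerivAt_Psi {y : Fin 5 → ℝ} (h1 : zc 1 (ch y) ∈ Complex.slitPlane)
    (h2 : zc 2 (ch y) ∈ Complex.slitPlane) : HasFDerivAt Psi (DPsi y) y := by
  rw [hasFDerivAt_pi']
  have htt : ∀ j, HasFDerivAt (fun y => tt j (ch y)) ((fderiv ℝ (tt j) (ch y)).comp inc0) y :=
    fun j => HasFDerivAt.comp y (da (cd_tt j (ch_ne y))).hasFDerivAt (ch_deriv y)
  intro i
  fin_cases i
  · exact HasFDerivAt.comp y (hasFDerivAt_arg 1 h1) (ch_deriv y)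
  · exact HasFDerivAt.comp y (hasFDerivAt_arg 2 h2) (ch_deriv y)
  · exact htt 0
  · exact htt 1
  · exact htt 2

/-- the norm of the good region -/
noncomputable def gg (v : Fin 5 → ℝ) : ℝ :=
  max (max (v 0) (v 1)) (max (-(v 0) - v 1) ((|v 2| + |v 3| + |v 4|) / 2))

lemma good_rr {x : E6} (h : Good x) : rr x = 0 :=
  rr_zero h.1.le fun k => Or.inl (h.2 _).le

lemma polar_good {y : Fin 5 → ℝ} (h : Good (ch y)) :
    polarForms forms y ⊆ {xi | ∀ w : Fin 5 → ℝ, ∑ i, xi i * w i ≤ gg (DPsi y w)} := by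
  intro xi hxi w
  have hx := ch_ne y
  have hrr := good_rr h
  have hr1 : rr (ch y) < 1 := by rw [hrr]; norm_num
  have hc1 : c1 (ch y) = 1 := c1_one (by rw [hrr]; norm_num)
  have hc2 : c2 (ch y) = 0 := c2_zero hrr.le
  have h6 : ∀ j, 1 / 6 < r j (ch y) := fun j => by linarith [h.2 j]
  set W : E6 := Fin.cons 0 w with hW
  have hWi : inc0 w = W := inc0_apply w
  have o1 : Om 1 (ch y) W = theta 1 (ch y) W := by
    rw [Om_eq_om hx hr1 (h6 1), om]; simp [sw]
  have o2 : Om 2 (ch y) W = theta 2 (ch y) W := by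
    rw [Om_eq_om hx hr1 (h6 2), om]; simp [sw]
  have o0 : Om 0 (ch y) W = - theta 1 (ch y) W - theta 2 (ch y) W := by
    have e := sum_Om hx hr1
    rw [Fin.sum_univ_three] at e
    have e' := congrArg (fun L : E6 →L[ℝ] ℝ => L W) e
    simp only [add_apply, zero_apply, o1, o2] at e'
    linarith
  have d0 : DPsi y w 0 = theta 1 (ch y) W := by rw [← hWi]; rfl
  have d1 : DPsi y w 1 = theta 2 (ch y) W := by rw [← hWi]; rfl
  have d2 : DPsi y w 2 = fderiv ℝ (tt 0) (ch y) W := by rw [← hWi]; rfl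
  have d3 : DPsi y w 3 = fderiv ℝ (tt 1) (ch y) W := by rw [← hWi]; rfl
  have d4 : DPsi y w 4 = fderiv ℝ (tt 2) (ch y) W := by rw [← hWi]; rfl
  have g0 : theta 1 (ch y) W ≤ gg (DPsi y w) := by
    rw [← d0]; exact (le_max_left _ _).trans (le_max_left _ _)
  have g1 : theta 2 (ch y) W ≤ gg (DPsi y w) := by
    rw [← d1]; exact (le_max_right _ _).trans (le_max_left _ _)
  have g2 : - theta 1 (ch y) W - theta 2 (ch y) W ≤ gg (DPsi y w) := by
    rw [← d0, ← d1]; exact (le_max_left _ _).trans (le_max_right _ _)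
  have g3 : (|fderiv ℝ (tt 0) (ch y) W| + |fderiv ℝ (tt 1) (ch y) W| +
      |fderiv ℝ (tt 2) (ch y) W|) / 2 ≤ gg (DPsi y w) := by
    rw [← d2, ← d3, ← d4]; exact (le_max_right _ _).trans (le_max_right _ _)
  have gn : 0 ≤ gg (DPsi y w) := le_trans (by positivity) g3
  refine hxi w (gg (DPsi y w)) gn ?_
  intro i
  rcases i with (j | e) | (q | (q | (q | q)))
  · change fA j (ch y) W ≤ _
    rw [fA_apply, hc1, one_mul]
    fin_cases j
    · exact o0.le.trans g2
    · exact o1.le.trans g0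
    · exact o2.le.trans g1
  · change fB e (ch y) W ≤ _
    rw [fB_apply, Fin.sum_univ_three]
    refine le_trans ?_ g3
    have hs : ∀ j, sg (e j) * fderiv ℝ (tt j) (ch y) W ≤ |fderiv ℝ (tt j) (ch y) W| := by
      intro j
      refine (le_abs_self _).trans (le_of_eq ?_)
      rw [abs_mul, sg_abs, one_mul]
    linarith [hs 0, hs 1, hs 2]
  · change fC q (ch y) W ≤ _
    rw [fC_apply, fd_rr_zero hrr]; simpa using gn
  · change fD q (ch y) W ≤ _
    rw [fD_apply, hc2]; simpa using gn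
  · change fE q (ch y) W ≤ _
    rw [fE_apply, hc2]; simpa using gn
  · change fG q (ch y) W ≤ _
    rw [fG_apply, hc2]; simpa using gn

lemma vol_polar_good {y : Fin 5 → ℝ} (h : Good (ch y)) :
    volume (polarForms forms y) ≤ ENNReal.ofReal |(DPsi y).det| * ENNReal.ofReal (3 / 20) := by
  refine (measure_mono (polar_good h)).trans ?_
  refine (Lib_helper91.RP.polar_comp gg (DPsi y)).trans ?_
  exact mul_le_mul_right Lib_helper91.RP.vol_K _

lemma Psi_mem {y : Fin 5 → ℝ} : Psi y ∈ {v : Fin 5 → ℝ | v 0 ∈ Set.Icc (-1) 1 ∧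
    v 1 ∈ Set.Icc (-1) 1 ∧ 0 ≤ v 2 ∧ 0 ≤ v 3 ∧ 0 ≤ v 4 ∧ v 2 + v 3 + v 4 ≤ 1} := by
  have hpi := Real.pi_pos
  have harg : ∀ z : ℂ, z.arg / Real.pi ∈ Set.Icc (-1 : ℝ) 1 := by
    intro z
    have h1 := Complex.neg_pi_lt_arg z
    have h2 := Complex.arg_le_pi z
    constructor
    · rw [le_div_iff₀ hpi]; linarith
    · rw [div_le_iff₀ hpi]; linarith
  have hs := tt_sum (ch_ne y)
  rw [Fin.sum_univ_three] at hs
  refine ⟨harg _, harg _, tt_nonneg 0, tt_nonneg 1, tt_nonneg 2, ?_⟩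
  change tt 0 (ch y) + tt 1 (ch y) + tt 2 (ch y) ≤ 1
  rw [hs]
  exact mu_le_one _

lemma vol_piece {S : Set (Fin 5 → ℝ)} (hS : MeasurableSet S)
    (hgood : ∀ y ∈ S, Good (ch y)) (h1 : ∀ y ∈ S, zc 1 (ch y) ∈ Complex.slitPlane)
    (h2 : ∀ y ∈ S, zc 2 (ch y) ∈ Complex.slitPlane) (hinj : InjOn Psi S) :
    ∫⁻ y in S, volume (polarForms forms y) ≤ ENNReal.ofReal (1 / 10) := by
  calc ∫⁻ y in S, volume (polarForms forms y)
      ≤ ∫⁻ y in S, ENNReal.ofReal |(DPsi y).det| * ENNReal.ofReal (3 / 20) :=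
        setLIntegral_mono' hS fun y hy => vol_polar_good (hgood y hy)
    _ = (∫⁻ y in S, ENNReal.ofReal |(DPsi y).det|) * ENNReal.ofReal (3 / 20) :=
        lintegral_mul_const' _ _ ENNReal.ofReal_ne_top
    _ = volume (Psi '' S) * ENNReal.ofReal (3 / 20) := by
        rw [lintegral_abs_det_fderiv_eq_addHaar_image volume hS
          (fun y hy => (hasFDerivAt_Psi (h1 y hy) (h2 y hy)).hasFDerivWithinAt) hinj]
    _ ≤ ENNReal.ofReal (2 / 3) * ENNReal.ofReal (3 / 20) := by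
        refine mul_le_mul_left ?_ _
        refine (measure_mono ?_).trans Lib_helper91.RP.vol_box_simplex
        rintro _ ⟨y, _, rfl⟩
        exact Psi_mem
    _ = ENNReal.ofReal (1 / 10) := by
        rw [← ENNReal.ofReal_mul (by norm_num)]; norm_num

lemma cont_g {g : E6 → ℝ} (hg : ∀ x, x ≠ 0 → ContDiffAt ℝ ∞ g x) :
    Continuous fun y => g (ch y) :=
  continuous_iff_continuousAt.2 fun y =>
    ContinuousAt.comp (f := ch) (hg _ (ch_ne y)).continuousAt ch_cont.continuousAt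

lemma isOpen_good : IsOpen {y | Good (ch y)} := by
  have h1 : IsOpen {y : Fin 5 → ℝ | |yy (ch y)| < 1} :=
    isOpen_lt (cont_g fun x hx => cd_yy hx).abs continuous_const
  have h2 : ∀ j, IsOpen {y : Fin 5 → ℝ | 1 / 4 < r j (ch y)} := fun j =>
    isOpen_lt continuous_const (cont_g fun x hx => cd_r j hx)
  have h3 : {y | Good (ch y)} = {y : Fin 5 → ℝ | |yy (ch y)| < 1} ∩
      ⋂ j, {y : Fin 5 → ℝ | 1 / 4 < r j (ch y)} := by
    ext y
    simp [Good]
  rw [h3]
  exact h1.inter (isOpen_iInter_of_finite h2)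

/-- tangent of the argument of the product -/
noncomputable def tq (x : E6) : ℝ := (pr x).im / (pr x).re

lemma meas_tq : Measurable fun y => tq (ch y) := by
  have h : Continuous fun y => pr (ch y) := cd_pr.continuous.comp ch_cont
  exact (Complex.measurable_im.comp h.measurable).div (Complex.measurable_re.comp h.measurable)

lemma null_im1 : volume {y : Fin 5 → ℝ | (zc 1 (ch y)).im = 0} = 0 := by
  apply null_of_orth (w := Pi.single 2 1)
  · intro h
    have := congrFun h 2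
    simp at this
  · intro y hy
    have h1 : (zc 1 (ch y)).im = y 2 := rfl
    rw [Set.mem_setOf_eq, h1] at hy
    simp [Pi.single_apply, hy]

lemma null_im2 : volume {y : Fin 5 → ℝ | (zc 2 (ch y)).im = 0} = 0 := by
  apply null_of_orth (w := Pi.single 4 1)
  · intro h
    have := congrFun h 4
    simp at this
  · intro y hy
    have h1 : (zc 2 (ch y)).im = y 4 := rfl
    rw [Set.mem_setOf_eq, h1] at hy
    simp [Pi.single_apply, hy]

lemma meas_im (j : Fin 3) : MeasurableSet {y : Fin 5 → ℝ | (zc j (ch y)).im ≠ 0} := by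
  have h : Continuous fun y => (zc j (ch y)).im := (cd_im j).continuous.comp ch_cont
  exact (isClosed_singleton.preimage h).measurableSet.compl

/-- first half -/
def A1 : Set (Fin 5 → ℝ) := {y | Good (ch y)} ∩ {y | (zc 1 (ch y)).im ≠ 0} ∩
  {y | (zc 2 (ch y)).im ≠ 0} ∩ {y | 0 ≤ tq (ch y)}
/-- second half -/
def A2 : Set (Fin 5 → ℝ) := {y | Good (ch y)} ∩ {y | (zc 1 (ch y)).im ≠ 0} ∩
  {y | (zc 2 (ch y)).im ≠ 0} ∩ {y | tq (ch y) < 0}

lemma meas_A1 : MeasurableSet A1 :=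
  ((isOpen_good.measurableSet.inter (meas_im 1)).inter (meas_im 2)).inter
    (measurableSet_le measurable_const meas_tq)
lemma meas_A2 : MeasurableSet A2 :=
  ((isOpen_good.measurableSet.inter (meas_im 1)).inter (meas_im 2)).inter
    (measurableSet_lt meas_tq measurable_const)

lemma slit_of_im {z : ℂ} (h : z.im ≠ 0) : z ∈ Complex.slitPlane :=
  Complex.mem_slitPlane_iff.2 (Or.inr h)

/-- The injectivity statement. -/
def GoodInj : Prop := ∀ x x' : E6, x 0 = 1 → x' 0 = 1 → Good x → Good x' →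
  ((0 ≤ (pr x).im / (pr x).re ∧ 0 ≤ (pr x').im / (pr x').re) ∨
    ((pr x).im / (pr x).re < 0 ∧ (pr x').im / (pr x').re < 0)) →
  (zc 1 x).arg = (zc 1 x').arg → (zc 2 x).arg = (zc 2 x').arg → (∀ j, tt j x = tt j x') → x = x'

lemma inj_aux (hGI : GoodInj) {y y' : Fin 5 → ℝ} (hy : Good (ch y)) (hy' : Good (ch y'))
    (hτ : (0 ≤ tq (ch y) ∧ 0 ≤ tq (ch y')) ∨ (tq (ch y) < 0 ∧ tq (ch y') < 0))
    (h : Psi y = Psi y') : y = y' := by
  have hpi := Real.pi_ne_zero
  apply ch_inj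
  refine hGI _ _ (ch_zero y) (ch_zero y') hy hy' hτ ?_ ?_ ?_
  · have := congrFun h 0
    change (zc 1 (ch y)).arg / Real.pi = (zc 1 (ch y')).arg / Real.pi at this
    field_simp at this
    exact this
  · have := congrFun h 1
    change (zc 2 (ch y)).arg / Real.pi = (zc 2 (ch y')).arg / Real.pi at this
    field_simp at this
    exact this
  · intro j
    fin_cases j
    · exact congrFun h 2
    · exact congrFun h 3
    · exact congrFun h 4

theorem vol_total (hGI : GoodInj) :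
    ∫⁻ y : Fin 5 → ℝ, volume (polarForms forms y) ≤ ENNReal.ofReal (1 / 5) := by
  set f : (Fin 5 → ℝ) → ℝ≥0∞ := fun y => volume (polarForms forms y) with hf
  let Bad : Set (Fin 5 → ℝ) := {y | ¬ Good (ch y)}
  let N : Set (Fin 5 → ℝ) := {y | (zc 1 (ch y)).im = 0} ∪ {y | (zc 2 (ch y)).im = 0}
  have hcover : (Set.univ : Set (Fin 5 → ℝ)) ⊆ (Bad ∪ N) ∪ (A1 ∪ A2) := by
    intro y _
    by_cases h1 : Good (ch y)
    · by_cases h2 : (zc 1 (ch y)).im = 0
      · exact Or.inl (Or.inr (Or.inl h2))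
      · by_cases h3 : (zc 2 (ch y)).im = 0
        · exact Or.inl (Or.inr (Or.inr h3))
        · rcases le_or_gt 0 (tq (ch y)) with h4 | h4
          · exact Or.inr (Or.inl ⟨⟨⟨h1, h2⟩, h3⟩, h4⟩)
          · exact Or.inr (Or.inr ⟨⟨⟨h1, h2⟩, h3⟩, h4⟩)
    · exact Or.inl (Or.inl h1)
  have hBad : ∫⁻ y in Bad, f y = 0 := by
    have hm : MeasurableSet Bad := isOpen_good.measurableSet.compl
    rw [← nonpos_iff_eq_zero]
    calc ∫⁻ y in Bad, f y ≤ ∫⁻ y in Bad, 0 :=
          setLIntegral_mono' hm fun y hy =>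
            (polar_null (lowRank_of_not_good (ch_ne y) hy)).le
      _ = 0 := by simp
  have hN : ∫⁻ y in N, f y = 0 := by
    apply setLIntegral_measure_zero
    exact measure_union_null null_im1 null_im2
  have h1 : ∫⁻ y in A1, f y ≤ ENNReal.ofReal (1 / 10) := by
    refine vol_piece meas_A1 (fun y hy => hy.1.1.1) (fun y hy => slit_of_im hy.1.1.2)
      (fun y hy => slit_of_im hy.1.2) ?_
    intro y hy y' hy' h
    exact inj_aux hGI hy.1.1.1 hy'.1.1.1 (Or.inl ⟨hy.2, hy'.2⟩) h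
  have h2 : ∫⁻ y in A2, f y ≤ ENNReal.ofReal (1 / 10) := by
    refine vol_piece meas_A2 (fun y hy => hy.1.1.1) (fun y hy => slit_of_im hy.1.1.2)
      (fun y hy => slit_of_im hy.1.2) ?_
    intro y hy y' hy' h
    exact inj_aux hGI hy.1.1.1 hy'.1.1.1 (Or.inr ⟨hy.2, hy'.2⟩) h
  calc ∫⁻ y, f y = ∫⁻ y in Set.univ, f y := by rw [setLIntegral_univ]
    _ ≤ ∫⁻ y in (Bad ∪ N) ∪ (A1 ∪ A2), f y := lintegral_mono_set hcover
    _ ≤ (∫⁻ y in Bad ∪ N, f y) + ∫⁻ y in A1 ∪ A2, f y := lintegral_union_le _ _ _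
    _ ≤ ((∫⁻ y in Bad, f y) + ∫⁻ y in N, f y) + ((∫⁻ y in A1, f y) + ∫⁻ y in A2, f y) :=
        add_le_add (lintegral_union_le _ _ _) (lintegral_union_le _ _ _)
    _ ≤ (0 + 0) + (ENNReal.ofReal (1 / 10) + ENNReal.ofReal (1 / 10)) := by
        rw [hBad, hN]
        exact add_le_add le_rfl (add_le_add h1 h2)
    _ = ENNReal.ofReal (1 / 5) := by
        rw [← ENNReal.ofReal_add (by norm_num) (by norm_num)]; norm_num

end Pool.Agent.Lib_helper71.RP
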